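import Pool.Agent.Lib.Pf720pm.Small

/-!
# Densities

`LB ψ l p`: on the lines in the direction `l`, outside an exceptional set `E` of lines of density
tending to zero, `ψ` has few values in any interval of length `2 p`, on average with a power saving
in the length of the line, uniformly in the other sides of the box.

`zero_density`: strong induction on `size a`. If no `Dep a l`: `pv a m = a 0 ≠ 0`. Otherwise let `e` be the
top degree in `m_l`, `b = co l e a`: the fraction of `pv b m = 0` tends to zero by induction and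
(`avg_update`, `line_lead` with `p = 0`, `r = 0`) the fraction of `pv b m ≠ 0`, `pv a m = 0` is
`≤ (D + 1)² / M l`.

`LB_pv`: `E = {m | pv b m = 0}` with `b = co l e a`, `e` the top degree in `m_l` (`b ≠ 0`, so
`zero_density`), `cnt m N = min N ((D + 1)² (p / |φ (pv b m)| + 1))` (`line_lead`). For a box `M` let
`N = M l`, `N' = N ^ (1/2)`: the points with `0 < |φ (pv b m)| ≤ 1 / N'` contribute at most
`C N' ^ (-δ)` (`small_values`), the others at most `(D + 1)² (p N' + 1) / N ≤ (D + 1)² (p + 1) N ^ (-1/2)`.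

`close_density`: from `LB_pv`: fraction of `E` plus
`avg M (if m ∈ E then 0 else cnt m (M l) / M l) ≤ C (M l) ^ (-δ) → 0` (`avg_update`).
-/

set_option autoImplicit false

open Finset Filter Topology

namespace Pool.Agent.Lib.Pf720pm

open Pool.Agent.Lib.Pf720mp (Ex mon)
open Pool.Agent.Lib.Pf720ae (avg box)

variable {κ : Type} [Fintype κ] [DecidableEq κ] {D d : ℕ}

open Classical in
/-- few small values on the lines in the direction `l` -/
def LB (ψ : (κ → ℕ) → ℝ) (l : κ) (p : ℝ) : Prop :=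
  ∃ (E : Set (κ → ℕ)) (cnt : (κ → ℕ) → ℕ → ℝ) (C δ : ℝ), 0 ≤ C ∧ 0 < δ ∧
    (∀ m t, Function.update m l t ∈ E ↔ m ∈ E) ∧
    Tendsto (fun M : κ → ℕ => avg M fun m => if m ∈ E then (1 : ℝ) else 0) atTop (𝓝 0) ∧
    (∀ m N, 0 ≤ cnt m N) ∧
    (∀ m, m ∉ E → ∀ (r : ℝ) (N : ℕ),
      (((range N).filter fun t : ℕ => |r + ψ (Function.update m l t)| ≤ p).card : ℝ) ≤ cnt m N) ∧
    (∀ M : κ → ℕ, (∀ l, 0 < M l) →
      avg M (fun m => if m ∈ E then 0 else cnt m (M l) / M l) ≤ C * (M l : ℝ) ^ (-δ))

namespace DensAux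

open Pool.Agent.Lib.Pf720ae (avg_add avg_mono avg_mono' avg_nonneg avg_le_of_le avg_congr)
open Pool.Agent.Lib.Pf720ae.Alg (avg_update)

theorem coord_tendsto (l : κ) : Tendsto (fun M : κ → ℕ => M l) atTop atTop :=
  tendsto_atTop_atTop.mpr fun n => ⟨fun _ => n, fun _ hM => hM l⟩

theorem ev_pos : ∀ᶠ M : κ → ℕ in atTop, ∀ l, 0 < M l := by
  filter_upwards [eventually_ge_atTop (fun _ : κ => 1)] with M hM l
  exact hM l

theorem zero_line {φ : (Fin d → ℤ) →+ ℝ} (hφ : Dio φ) {a : Ex κ D → Fin d → ℤ} {l : κ}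
    {e : Fin (D + 1)} (he : e ≠ 0) (htop : ∀ e', e < e' → co l e' a = 0) (M : κ → ℕ)
    (hM : ∀ l, 0 < M l) :
    avg M (fun m => if pv (co l e a) m ≠ 0 ∧ pv a m = 0 then (1 : ℝ) else 0) ≤
      ((D : ℝ) + 1) ^ 2 / M l := by
  rw [avg_update M hM l]
  refine avg_le_of_le (by positivity) fun m => ?_
  have hMl : (0 : ℝ) < M l := by exact_mod_cast hM l
  rw [inv_mul_le_iff₀ hMl, mul_div_cancel₀ _ hMl.ne']
  by_cases hb : pv (co l e a) m = 0
  · refine le_trans (le_of_eq (Finset.sum_eq_zero fun t _ => ?_)) (by positivity)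
    rw [pv_co_update, if_neg]
    exact fun h => h.1 hb
  · have h1 := line_lead hφ he htop m hb le_rfl 0 (M l)
    rw [zero_div, zero_add, mul_one] at h1
    refine le_trans ?_ h1
    rw [Finset.card_filter]
    push_cast
    refine Finset.sum_le_sum fun t _ => ?_
    by_cases hc : pv a (Function.update m l t) = 0
    · have h2 : |0 + φ (pv a (Function.update m l t))| ≤ 0 := by
        rw [hc, map_zero, add_zero, abs_zero]
      rw [if_pos h2]
      split_ifs <;> norm_num
    · rw [if_neg fun h => hc h.2]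
      split_ifs <;> norm_num

theorem ne_zero_of_not_dep {a : Ex κ D → Fin d → ℤ} (ha : a ≠ 0) (h : ∀ l, ¬ Dep a l) :
    a 0 ≠ 0 := by
  intro h0
  apply ha
  funext γ
  by_contra hγ
  by_cases h1 : ∃ l, γ l ≠ 0
  · obtain ⟨l, hl⟩ := h1
    exact h l ⟨γ, hγ, hl⟩
  · push Not at h1
    have : γ = 0 := funext h1
    rw [this] at hγ
    exact hγ h0

theorem rpow_tendsto (l : κ) {δ : ℝ} (hδ : 0 < δ) (C : ℝ) :
    Tendsto (fun M : κ → ℕ => C * (M l : ℝ) ^ (-δ)) atTop (𝓝 0) := by
  have h1 : Tendsto (fun M : κ → ℕ => ((M l : ℕ) : ℝ)) atTop atTop :=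
    tendsto_natCast_atTop_atTop.comp (coord_tendsto l)
  have h2 := ((tendsto_rpow_neg_atTop hδ).comp h1).const_mul C
  rw [mul_zero] at h2
  exact h2

end DensAux

open Pool.Agent.Lib.Pf720ae (avg_add avg_mono avg_mono' avg_nonneg avg_le_of_le avg_congr)
open Pool.Agent.Lib.Pf720ae.Alg (avg_update)

theorem zero_density {φ : (Fin d → ℤ) →+ ℝ} (hφ : Dio φ) (a : Ex κ D → Fin d → ℤ) (ha : a ≠ 0) :
    Tendsto (fun M : κ → ℕ => avg M fun m => if pv a m = 0 then (1 : ℝ) else 0) atTop (𝓝 0) := by
  induction hn : size a using Nat.strong_induction_on generalizing a with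
  | _ n ih =>
  by_cases hdep : ∃ l, Dep a l
  · obtain ⟨l, hl⟩ := hdep
    obtain ⟨e, he, hco, htop⟩ := exists_top hl
    have h1 := ih (size (co l e a)) (by rw [← hn]; exact size_co he hco) (co l e a) hco rfl
    have h2 : Tendsto (fun M : κ → ℕ => ((D : ℝ) + 1) ^ 2 / (M l : ℝ)) atTop (𝓝 0) := by
      have h3 := DensAux.rpow_tendsto l one_pos (((D : ℝ) + 1) ^ 2)
      refine h3.congr fun M => ?_
      rw [Real.rpow_neg_one, div_eq_mul_inv]
    have h4 := h1.add h2
    rw [add_zero] at h4
    refine tendsto_of_tendsto_of_tendsto_of_le_of_le' tendsto_const_nhds h4 ?_ ?_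
    · filter_upwards with M
      refine avg_nonneg M fun m => ?_
      split_ifs <;> norm_num
    · filter_upwards [DensAux.ev_pos] with M hM
      have h5 := DensAux.zero_line hφ he htop M hM
      refine le_trans ?_ (add_le_add_right h5 _)
      rw [← avg_add]
      refine avg_mono M fun m => ?_
      by_cases hb : pv (co l e a) m = 0
      · rw [if_pos hb]
        split_ifs <;> norm_num
      · rw [if_neg hb]
        by_cases hc : pv a m = 0
        · rw [if_pos hc, if_pos ⟨hb, hc⟩, zero_add]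
        · rw [if_neg hc, if_neg fun h => hc h.2, zero_add]
  · push Not at hdep
    have h0 := DensAux.ne_zero_of_not_dep ha hdep
    refine tendsto_const_nhds.congr fun M => ?_
    unfold avg
    rw [Finset.sum_eq_zero, mul_zero]
    intro m _
    rw [pv_eq_of_not_dep hdep, if_neg h0]

theorem LB_pv {φ : (Fin d → ℤ) →+ ℝ} (hφ : Dio φ) (a : Ex κ D → Fin d → ℤ) {l : κ}
    (hl : Dep a l) {p : ℝ} (hp : 0 ≤ p) : LB (fun m => φ (pv a m)) l p := by
  classical
  obtain ⟨e, he, hco, htop⟩ := exists_top hl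
  obtain ⟨C₁, δ₁, hC₁, hδ₁, hsm⟩ := small_values hφ (co l e a)
  set b := co l e a with hb
  set K : ℝ := ((D : ℝ) + 1) ^ 2 with hK
  have hK0 : 0 ≤ K := by positivity
  refine ⟨{m | pv b m = 0}, fun m N => min (N : ℝ) (K * (p / |φ (pv b m)| + 1)),
    C₁ + K * (p + 1), min (δ₁ / 2) (1 / 2), by positivity, by positivity, ?_, ?_, ?_, ?_, ?_⟩
  · intro m t
    rw [Set.mem_setOf_eq, Set.mem_setOf_eq, hb, pv_co_update]
  · refine (zero_density hφ b hco).congr fun M => avg_congr fun m _ => ?_
    by_cases h : pv b m = 0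
    · rw [if_pos h, if_pos (show m ∈ {m | pv b m = 0} from h)]
    · rw [if_neg h, if_neg (show m ∉ {m | pv b m = 0} from h)]
  · intro m N
    exact le_min (by positivity) (by positivity)
  · intro m hm r N
    refine le_min ?_ (line_lead hφ he htop m hm hp r N)
    have := Finset.card_filter_le (range N) fun t : ℕ =>
      |r + φ (pv a (Function.update m l t))| ≤ p
    rw [Finset.card_range] at this
    exact_mod_cast this
  · intro M hM
    have hn1 : (1 : ℝ) ≤ M l := by exact_mod_cast hM l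
    have hn0 : (0 : ℝ) < M l := by linarith
    set n : ℝ := (M l : ℝ) with hn
    set N' : ℝ := n ^ (1 / 2 : ℝ) with hN'
    have hN1 : 1 ≤ N' := Real.one_le_rpow hn1 (by norm_num)
    have hN0 : 0 < N' := by linarith
    have h1 := hsm M hM N' hN1
    have h2 : avg M (fun m => if m ∈ {m | pv b m = 0} then (0 : ℝ) else
        min n (K * (p / |φ (pv b m)| + 1)) / n) ≤
        avg M (fun m => (if 0 < |φ (pv b m)| ∧ |φ (pv b m)| ≤ N'⁻¹ then (1 : ℝ) else 0) +
          K * (p + 1) * (N' / n)) := by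
      refine avg_mono M fun m => ?_
      have hpos : 0 ≤ K * (p + 1) * (N' / n) := by positivity
      by_cases hm : pv b m = 0
      · rw [if_pos (show m ∈ {m | pv b m = 0} from hm)]
        split_ifs <;> linarith
      · rw [if_neg (show m ∉ {m | pv b m = 0} from hm)]
        have hφ0 : 0 < |φ (pv b m)| := abs_pos.mpr (hφ.ne hm)
        by_cases hs : |φ (pv b m)| ≤ N'⁻¹
        · rw [if_pos ⟨hφ0, hs⟩]
          have : min n (K * (p / |φ (pv b m)| + 1)) / n ≤ 1 := by
            rw [div_le_one hn0]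
            exact min_le_left _ _
          linarith
        · rw [if_neg fun h => hs h.2, zero_add]
          push Not at hs
          have h3 : p / |φ (pv b m)| ≤ p * N' := by
            rw [div_eq_mul_inv]
            refine mul_le_mul_of_nonneg_left ?_ hp
            have := inv_anti₀ (inv_pos.mpr hN0) hs.le
            rwa [inv_inv] at this
          have h4 : K * (p / |φ (pv b m)| + 1) ≤ K * ((p + 1) * N') := by
            refine mul_le_mul_of_nonneg_left ?_ hK0
            nlinarith
          calc min n (K * (p / |φ (pv b m)| + 1)) / n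
              ≤ K * ((p + 1) * N') / n := by
                refine div_le_div_of_nonneg_right ((min_le_right _ _).trans h4) hn0.le
            _ = K * (p + 1) * (N' / n) := by ring
    have h3 : N' / n = n ^ (-(1 / 2) : ℝ) := by
      rw [hN', div_eq_mul_inv, ← Real.rpow_neg_one n, ← Real.rpow_add hn0]
      norm_num
    have h4 : n ^ (-(1 / 2) : ℝ) ≤ n ^ (-(min (δ₁ / 2) (1 / 2))) :=
      Real.rpow_le_rpow_of_exponent_le hn1 (by
        have := min_le_right (δ₁ / 2) (1 / 2 : ℝ)
        linarith)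
    have h5 : N' ^ (-δ₁) ≤ n ^ (-(min (δ₁ / 2) (1 / 2))) := by
      rw [hN', ← Real.rpow_mul hn0.le]
      refine Real.rpow_le_rpow_of_exponent_le hn1 ?_
      have := min_le_left (δ₁ / 2) (1 / 2 : ℝ)
      linarith
    rw [avg_add, Pool.Agent.Lib.Pf720ae.avg_const hM, h3] at h2
    have h6 : C₁ * N' ^ (-δ₁) ≤ C₁ * n ^ (-(min (δ₁ / 2) (1 / 2))) :=
      mul_le_mul_of_nonneg_left h5 hC₁
    have h7 : K * (p + 1) * n ^ (-(1 / 2) : ℝ) ≤
        K * (p + 1) * n ^ (-(min (δ₁ / 2) (1 / 2))) :=
      mul_le_mul_of_nonneg_left h4 (by positivity)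
    rw [add_mul]
    refine le_trans ?_ (h2.trans ?_)
    · refine le_of_eq (avg_congr fun m _ => ?_)
      by_cases h : m ∈ {m | pv b m = 0}
      · rw [if_pos h, if_pos h]
      · rw [if_neg h, if_neg h]
    · linarith

theorem close_density {φ : (Fin d → ℤ) →+ ℝ} (hφ : Dio φ) (a : Ex κ D → Fin d → ℤ) {l : κ}
    (hl : Dep a l) {p : ℝ} (hp : 0 ≤ p) :
    Tendsto (fun M : κ → ℕ => avg M fun m => if |φ (pv a m)| ≤ p then (1 : ℝ) else 0)
      atTop (𝓝 0) := by
  classical
  obtain ⟨E, cnt, C, δ, hC, hδ, hE, hdens, hcnt, hline, havg⟩ := LB_pv hφ a hl hp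
  have h1 := hdens.add (DensAux.rpow_tendsto l hδ C)
  rw [add_zero] at h1
  refine tendsto_of_tendsto_of_tendsto_of_le_of_le' tendsto_const_nhds h1 ?_ ?_
  · filter_upwards with M
    refine avg_nonneg M fun m => ?_
    split_ifs <;> norm_num
  · filter_upwards [DensAux.ev_pos] with M hM
    have h2 := havg M hM
    have hMl : (0 : ℝ) < M l := by exact_mod_cast hM l
    have h3 : avg M (fun m => if |φ (pv a m)| ≤ p then (1 : ℝ) else 0) ≤
        avg M (fun m => if m ∈ E then (1 : ℝ) else 0) +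
        avg M (fun m => if m ∈ E then (0 : ℝ) else if |φ (pv a m)| ≤ p then 1 else 0) := by
      rw [← avg_add]
      refine avg_mono M fun m => ?_
      split_ifs <;> norm_num
    have h4 : avg M (fun m => if m ∈ E then (0 : ℝ) else if |φ (pv a m)| ≤ p then 1 else 0) ≤
        avg M (fun m => if m ∈ E then 0 else cnt m (M l) / M l) := by
      rw [avg_update M hM l]
      refine avg_mono M fun m => ?_
      by_cases hm : m ∈ E
      · rw [if_pos hm, Finset.sum_eq_zero, mul_zero]
        intro t _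
        rw [if_pos ((hE m t).mpr hm)]
      · rw [if_neg hm, inv_mul_le_iff₀ hMl, mul_div_cancel₀ _ hMl.ne']
        have h5 := hline m hm 0 (M l)
        refine le_trans ?_ h5
        rw [Finset.card_filter]
        push_cast
        refine Finset.sum_le_sum fun t _ => ?_
        rw [if_neg fun h => hm ((hE m t).mp h), zero_add]
    exact h3.trans (add_le_add_right (h4.trans h2) _)

end Pool.Agent.Lib.Pf720pm
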