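import Pool.Agent.Lib.Pf720pm.Coef

/-!
# Existence of Diophantine functionals

Induction on `d`. Let `φ` be Diophantine on `ℤ^d`. On `ℤ^(d+1)` put `φ' v = φ (tail v) + x * v 0`
with `x` outside all the intervals
`{x : |φ (tail v) + x * v 0| < g(v)}`, `v 0 ≠ 0`, of length `≤ 2 g(v) / |v 0| ≤ 2 g(v)`, where
`g(v) = ‖v‖ ^ (-(d + 2))` is summable over the integer vectors
(`ZLattice.summable_norm_rpow`); the total length is finite. For `v 0 ≠ 0`:
`|φ' v| ≥ g(v) ≥ R ^ (-(d + 2))`; for `v 0 = 0` use `φ`.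
-/

set_option autoImplicit false

open Finset Filter Topology MeasureTheory

namespace Pool.Agent.Lib.Pf720pm

namespace DiophAux

lemma summable_g (n : ℕ) :
    Summable fun v : Fin n → ℤ => (‖(fun i => (v i : ℝ))‖ ^ (n + 1))⁻¹ := by
  let L := Submodule.span ℤ (Set.range (Pi.basisFun ℝ (Fin n)))
  have hrank : Module.finrank ℤ L = n := by
    rw [ZLattice.rank ℝ]
    simp
  have h := ZLattice.summable_norm_rpow L (-((n + 1 : ℕ) : ℝ)) (by
    rw [hrank]
    push_cast
    linarith)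
  have hmem : ∀ x : Fin n → ℤ, (fun i => (x i : ℝ)) ∈ L := by
    intro x
    have : (fun i => (x i : ℝ)) = ∑ i, x i • (Pi.basisFun ℝ (Fin n)) i := by
      ext j
      simp [Finset.sum_apply, Pi.single_apply]
    rw [this]
    exact Submodule.sum_mem _ fun i _ => Submodule.smul_mem _ _ (Submodule.subset_span ⟨i, rfl⟩)
  let φ : (Fin n → ℤ) → L := fun x => ⟨fun i => (x i : ℝ), hmem x⟩
  have hφ : Function.Injective φ := by
    intro x y hxy
    have h1 : (fun i => (x i : ℝ)) = (fun i => (y i : ℝ)) := congrArg Subtype.val hxy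
    funext i
    have := congrFun h1 i
    simpa using this
  refine (h.comp_injective hφ).congr fun x => ?_
  change ‖(fun i => (x i : ℝ))‖ ^ (-((n + 1 : ℕ) : ℝ)) = _
  rw [Real.rpow_neg (norm_nonneg _), Real.rpow_natCast]

lemma one_le_norm {n : ℕ} {v : Fin n → ℤ} (hv : v ≠ 0) : 1 ≤ ‖(fun i => (v i : ℝ))‖ := by
  obtain ⟨i, hi⟩ := Function.ne_iff.1 hv
  have h1 : (1 : ℝ) ≤ |(v i : ℝ)| := by
    have h2 : 1 ≤ |v i| := Int.one_le_abs hi
    exact_mod_cast h2
  refine h1.trans ?_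
  rw [← Real.norm_eq_abs]
  exact norm_le_pi_norm (fun i => (v i : ℝ)) i

lemma exists_x {n : ℕ} (a : (Fin n → ℤ) → ℝ) (w : (Fin n → ℤ) → ℤ) :
    ∃ x : ℝ, ∀ v : Fin n → ℤ, w v ≠ 0 →
      (‖(fun i => (v i : ℝ))‖ ^ (n + 1))⁻¹ ≤ |a v + x * (w v : ℝ)| := by
  set g : (Fin n → ℤ) → ℝ := fun v => (‖(fun i => (v i : ℝ))‖ ^ (n + 1))⁻¹ with hg
  have hg0 : ∀ v, 0 ≤ g v := fun v => by
    rw [hg]
    positivity
  have hs : Summable fun v => 2 * g v := (summable_g n).mul_left 2
  let bad : (Fin n → ℤ) → Set ℝ := fun v => Metric.ball (-(a v) / (w v : ℝ)) (g v)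
  have hvol : volume (⋃ v, bad v) < ⊤ := by
    refine (measure_iUnion_le _).trans_lt ?_
    have e : ∀ v, volume (bad v) = ENNReal.ofReal (2 * g v) := fun v => Real.volume_ball _ _
    simp only [e]
    rw [← ENNReal.ofReal_tsum_of_nonneg (fun v => by have := hg0 v; positivity) hs]
    exact ENNReal.ofReal_lt_top
  have hne : (⋃ v, bad v) ≠ Set.univ := by
    intro h
    rw [h, Real.volume_univ] at hvol
    exact lt_irrefl _ hvol
  obtain ⟨x, hx⟩ := (Set.ne_univ_iff_exists_notMem _).1 hne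
  refine ⟨x, fun v hv => ?_⟩
  have h1 : x ∉ bad v := fun h => hx (Set.mem_iUnion.2 ⟨v, h⟩)
  have h2 : g v ≤ |x - -(a v) / (w v : ℝ)| := by
    by_contra h
    exact h1 (by rw [Metric.mem_ball, Real.dist_eq]; exact not_le.1 h)
  have hw : (w v : ℝ) ≠ 0 := by exact_mod_cast hv
  have hw1 : (1 : ℝ) ≤ |(w v : ℝ)| := by
    have h2 : 1 ≤ |w v| := Int.one_le_abs hv
    exact_mod_cast h2
  have e : a v + x * (w v : ℝ) = (x - -(a v) / (w v : ℝ)) * (w v : ℝ) := by
    field_simp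
    ring
  rw [e, abs_mul]
  calc g v = g v * 1 := (mul_one _).symm
    _ ≤ |x - -(a v) / (w v : ℝ)| * |(w v : ℝ)| :=
      mul_le_mul h2 hw1 zero_le_one (abs_nonneg _)

end DiophAux

open DiophAux in
theorem exists_dio (d : ℕ) : ∃ φ : (Fin d → ℤ) →+ ℝ, Dio φ := by
  induction d with
  | zero =>
    refine ⟨0, 1, one_pos, 0, fun v hv => ?_⟩
    exact absurd (Subsingleton.elim v 0) hv
  | succ d ih =>
    obtain ⟨φ, c, hc, A, hA⟩ := ih
    obtain ⟨x, hx⟩ := exists_x (n := d + 1) (fun v => φ (Fin.tail v)) (fun v => v 0)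
    let φ' : (Fin (d + 1) → ℤ) →+ ℝ := AddMonoidHom.mk'
      (fun v => φ (Fin.tail v) + x * (v 0 : ℝ)) (fun v w => by
        have e : Fin.tail (v + w) = Fin.tail v + Fin.tail w := rfl
        rw [e, map_add, Pi.add_apply]
        push_cast
        ring)
    have hφ' : ∀ v, φ' v = φ (Fin.tail v) + x * (v 0 : ℝ) := fun v => rfl
    refine ⟨φ', min c 1, lt_min hc one_pos, max A (d + 1 + 1), fun v hv R hR hvR => ?_⟩
    by_cases h0 : v 0 = 0
    · have ht : Fin.tail v ≠ 0 := by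
        intro ht
        apply hv
        funext i
        refine Fin.cases h0 (fun j => ?_) i
        exact congrFun ht j
      have h1 := hA (Fin.tail v) ht R hR (fun i => hvR i.succ)
      have e : φ' v = φ (Fin.tail v) := by
        rw [hφ', h0]
        simp
      rw [e]
      refine (min_le_left _ _).trans (h1.trans ?_)
      exact mul_le_mul_of_nonneg_right (pow_le_pow_right₀ hR (le_max_left _ _)) (abs_nonneg _)
    · have h1 := hx v h0
      beta_reduce at h1
      rw [← hφ'] at h1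
      have h2 : 1 ≤ ‖(fun i => (v i : ℝ))‖ := one_le_norm hv
      have h3 : ‖(fun i => (v i : ℝ))‖ ≤ R :=
        (pi_norm_le_iff_of_nonneg (by linarith)).2 fun i => by
          rw [Real.norm_eq_abs]
          exact hvR i
      have h4 : ‖(fun i => (v i : ℝ))‖ ^ (d + 1 + 1) ≤ R ^ (d + 1 + 1) :=
        pow_le_pow_left₀ (norm_nonneg _) h3 _
      have h5 : (0 : ℝ) < ‖(fun i => (v i : ℝ))‖ ^ (d + 1 + 1) := by positivity
      refine (min_le_right _ _).trans ?_
      calc (1 : ℝ) = ‖(fun i => (v i : ℝ))‖ ^ (d + 1 + 1) *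
            (‖(fun i => (v i : ℝ))‖ ^ (d + 1 + 1))⁻¹ := (mul_inv_cancel₀ h5.ne').symm
        _ ≤ R ^ (d + 1 + 1) * |φ' v| :=
          mul_le_mul h4 h1 (inv_nonneg.2 h5.le) (by positivity)
        _ ≤ R ^ (max A (d + 1 + 1)) * |φ' v| :=
          mul_le_mul_of_nonneg_right (pow_le_pow_right₀ hR (le_max_right _ _)) (abs_nonneg _)

end Pool.Agent.Lib.Pf720pm
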