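import Pool.Agent.Lib.Pf720pm.Dens
import Pool.Agent.Lib.Pf720mp.Emb
import Pool.Agent.Lib.Pf720pi.Doubling

/-!
# Classes of polynomial maps
-/

set_option autoImplicit false
set_option linter.unusedSectionVars false

open Finset MeasureTheory Filter Topology
open scoped ENNReal

namespace Pool.Agent.Lib.Pf720pm

open Pool.Agent.Lib.Pf720mp (Ex mon exs eval_eq_sum_ex)
open Pool.Agent.Lib.Pf720ae (avg box avg_congr)
open Pool.Agent.Lib.Pf720pi (glue)

/-- polynomial maps `ℕ^κ → ℤ^d` -/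
def IsPol {κ : Type} {d : ℕ} (e : (κ → ℕ) → Fin d → ℤ) : Prop :=
  ∃ P : Fin d → MvPolynomial κ ℤ, ∀ m i, e m i = MvPolynomial.eval (fun l => (m l : ℤ)) (P i)

lemma IsPol.sub {κ : Type} {d : ℕ} {e e' : (κ → ℕ) → Fin d → ℤ} (h : IsPol e) (h' : IsPol e') :
    IsPol (fun m => e m - e' m) := by
  obtain ⟨P, hP⟩ := h
  obtain ⟨P', hP'⟩ := h'
  refine ⟨fun i => P i - P' i, fun m i => ?_⟩
  beta_reduce
  rw [Pi.sub_apply, hP, hP', map_sub]

lemma IsPol.sub_const {κ : Type} {d : ℕ} {e : (κ → ℕ) → Fin d → ℤ} (h : IsPol e)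
    (c : Fin d → ℤ) : IsPol (fun m => e m - c) := by
  obtain ⟨P, hP⟩ := h
  refine ⟨fun i => P i - MvPolynomial.C (c i), fun m i => ?_⟩
  beta_reduce
  rw [Pi.sub_apply, hP, map_sub, MvPolynomial.eval_C]

lemma IsPol.rename {κ κ' : Type} {d : ℕ} {e : (κ → ℕ) → Fin d → ℤ} (h : IsPol e) (σ : κ → κ') :
    IsPol (fun m : κ' → ℕ => e fun l => m (σ l)) := by
  obtain ⟨P, hP⟩ := h
  refine ⟨fun i => MvPolynomial.rename σ (P i), fun m i => ?_⟩
  beta_reduce
  rw [hP, MvPolynomial.eval_rename]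
  rfl

lemma IsPol.glue {κ : Type} {d : ℕ} {e : (κ → ℕ) → Fin d → ℤ} (h : IsPol e)
    (vis : κ → Prop) [DecidablePred vis] :
    IsPol (fun a : {l // vis l} → ℕ => e (glue vis a 0)) := by
  obtain ⟨P, hP⟩ := h
  refine ⟨fun i => MvPolynomial.bind₁ (fun l => if h : vis l then MvPolynomial.X ⟨l, h⟩ else 0)
    (P i), fun m i => ?_⟩
  beta_reduce
  rw [hP]
  have h1 : MvPolynomial.eval (fun l : {l // vis l} => (m l : ℤ)) (MvPolynomial.bind₁
      (fun l => if h : vis l then MvPolynomial.X ⟨l, h⟩ else 0) (P i)) =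
      MvPolynomial.eval (fun l => MvPolynomial.eval (fun l : {l // vis l} => (m l : ℤ))
        (if h : vis l then MvPolynomial.X ⟨l, h⟩ else 0)) (P i) := by
    have := MvPolynomial.eval₂Hom_bind₁ (RingHom.id ℤ) (fun l : {l // vis l} => (m l : ℤ))
      (fun l => if h : vis l then (MvPolynomial.X ⟨l, h⟩ : MvPolynomial {l // vis l} ℤ) else 0) (P i)
    exact this
  rw [h1]
  congr 2
  funext l
  unfold Pool.Agent.Lib.Pf720pi.glue
  split_ifs with hl
  · rw [MvPolynomial.eval_X]
  · simp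

lemma IsPol.exists_pv {κ : Type} [Fintype κ] [DecidableEq κ] {d : ℕ} {e : (κ → ℕ) → Fin d → ℤ}
    (h : IsPol e) : ∃ (D : ℕ) (a : Ex κ D → Fin d → ℤ), ∀ m, e m = pv a m := by
  obtain ⟨P, hP⟩ := h
  refine ⟨∑ i, (P i).totalDegree, fun γ i => (P i).coeff (exs γ), fun m => ?_⟩
  funext i
  rw [hP, eval_eq_sum_ex (P i) (Finset.single_le_sum (f := fun i => (P i).totalDegree)
      (fun _ _ => Nat.zero_le _) (Finset.mem_univ i)) m]
  unfold pv
  rw [Finset.sum_apply]
  refine Finset.sum_congr rfl fun γ _ => ?_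
  rw [Pi.smul_apply, smul_eq_mul, mul_comm]

/-- `e` depends on the variable `l` -/
def FDep {κ : Type} [DecidableEq κ] {β : Type*} (e : (κ → ℕ) → β) (l : κ) : Prop :=
  ∃ m t, e (Function.update m l t) ≠ e m

lemma fdep_congr {κ : Type} [Fintype κ] [DecidableEq κ] {β : Type*} (e : (κ → ℕ) → β)
    {m m' : κ → ℕ} (h : ∀ l, FDep e l → m l = m' l) : e m = e m' := by
  have h1 : ∀ s : Finset κ, e (fun l => if l ∈ s then m' l else m l) = e m := by
    intro s
    induction s using Finset.induction_on with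
    | empty => simp
    | insert a s ha ih =>
      by_cases hd : FDep e a
      · rw [← ih]
        congr 1
        funext l
        by_cases hl : l = a
        · subst hl
          rw [if_pos (Finset.mem_insert_self _ _), if_neg ha, h _ hd]
        · simp [Finset.mem_insert, hl]
      · have h2 : ∀ m t, e (Function.update m a t) = e m := by
          intro m t
          by_contra hc
          exact hd ⟨m, t, hc⟩
        rw [← ih, ← h2 (fun l => if l ∈ s then m' l else m l) (m' a)]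
        congr 1
        funext l
        by_cases hl : l = a
        · subst hl
          rw [if_pos (Finset.mem_insert_self _ _), Function.update_self]
        · rw [Function.update_of_ne hl]
          simp [Finset.mem_insert, hl]
  have h2 := h1 Finset.univ
  simp only [Finset.mem_univ, if_true] at h2
  exact h2.symm

lemma exists_fdep {κ : Type} [Fintype κ] [DecidableEq κ] {β : Type*} (e : (κ → ℕ) → β)
    {m m' : κ → ℕ} (h : e m ≠ e m') : ∃ l, FDep e l := by
  by_contra hc
  push Not at hc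
  exact h (fdep_congr e fun l hl => absurd hl (hc l))

lemma LB_of_fdep {κ : Type} [Fintype κ] [DecidableEq κ] {d : ℕ} {φ : (Fin d → ℤ) →+ ℝ}
    (hφ : Dio φ) {e : (κ → ℕ) → Fin d → ℤ} (he : IsPol e) {l : κ} (hl : FDep e l) {p : ℝ}
    (hp : 0 ≤ p) : LB (fun m => φ (e m)) l p := by
  obtain ⟨D, a, ha⟩ := he.exists_pv
  have hd : Dep a l := by
    by_contra h
    obtain ⟨m, t, hm⟩ := hl
    rw [ha, ha, pv_update h] at hm
    exact hm rfl
  have e1 : (fun m => φ (e m)) = fun m => φ (pv a m) := funext fun m => by rw [ha]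
  rw [e1]
  exact LB_pv hφ a hd hp

lemma close_of_ne {κ : Type} [Fintype κ] [DecidableEq κ] {d : ℕ} {φ : (Fin d → ℤ) →+ ℝ}
    (hφ : Dio φ) {e e' : (κ → ℕ) → Fin d → ℤ} (he : IsPol e) (he' : IsPol e') (h0 : e 0 = e' 0)
    (hne : e ≠ e') {p : ℝ} (hp : 0 ≤ p) :
    Tendsto (fun M : κ → ℕ => avg M fun m => if |φ (e m) - φ (e' m)| ≤ p then (1 : ℝ) else 0)
      atTop (𝓝 0) := by
  have hs := he.sub he'
  obtain ⟨D, a, ha⟩ := hs.exists_pv
  obtain ⟨m₀, hm₀⟩ := Function.ne_iff.1 hne
  obtain ⟨l, hl⟩ : ∃ l, FDep (fun m => e m - e' m) l := by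
    refine exists_fdep (m := m₀) (m' := 0) _ ?_
    rw [h0, sub_self]
    exact sub_ne_zero.2 hm₀
  have hd : Dep a l := by
    by_contra h
    obtain ⟨m, t, hm⟩ := hl
    simp only [ha] at hm
    rw [pv_update h] at hm
    exact hm rfl
  refine (close_density hφ a hd hp).congr fun M => ?_
  refine avg_congr fun m _ => ?_
  rw [← ha, map_sub]

/-- classes of polynomial maps closed under renaming the variables -/
def RenClosed {d : ℕ} (Q : (κ : Type) → Set ((κ → ℕ) → Fin d → ℤ)) : Prop :=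
  ∀ (κ κ' : Type) (σ : κ → κ'), Function.Injective σ → ∀ e ∈ Q κ,
    (fun m : κ' → ℕ => e fun l => m (σ l)) ∈ Q κ'

section gluelemmas

variable {κ : Type} [DecidableEq κ] (vis : κ → Prop) [DecidablePred vis]

lemma glue_update (a : {l // vis l} → ℕ) (b : {l // ¬ vis l} → ℕ) (l : {l // vis l}) (t : ℕ) :
    glue vis (Function.update a l t) b = Function.update (glue vis a b) l.1 t := by
  funext l'
  by_cases hl' : l' = l.1
  · subst hl'
    rw [Function.update_self]
    unfold glue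
    rw [dif_pos l.2, Function.update_self]
  · rw [Function.update_of_ne hl']
    unfold glue
    split_ifs with h
    · rw [Function.update_of_ne]
      rintro rfl
      exact hl' rfl
    · rfl

/-- the first copy -/
def inj₁ : κ → {l // vis l} ⊕ ({l // ¬ vis l} ⊕ {l // ¬ vis l}) :=
  fun l => if h : vis l then Sum.inl ⟨l, h⟩ else Sum.inr (Sum.inl ⟨l, h⟩)

/-- the second copy -/
def inj₂ : κ → {l // vis l} ⊕ ({l // ¬ vis l} ⊕ {l // ¬ vis l}) :=
  fun l => if h : vis l then Sum.inl ⟨l, h⟩ else Sum.inr (Sum.inr ⟨l, h⟩)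

lemma inj₁_injective : Function.Injective (inj₁ vis) := by
  intro l l' h
  unfold inj₁ at h
  split_ifs at h with h1 h2 h2
  · exact congrArg Subtype.val (Sum.inl_injective h)
  · exact congrArg Subtype.val (Sum.inl_injective (Sum.inr_injective h))

lemma inj₂_injective : Function.Injective (inj₂ vis) := by
  intro l l' h
  unfold inj₂ at h
  split_ifs at h with h1 h2 h2
  · exact congrArg Subtype.val (Sum.inl_injective h)
  · exact congrArg Subtype.val (Sum.inr_injective (Sum.inr_injective h))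

lemma comp_inj₁ (m : {l // vis l} ⊕ ({l // ¬ vis l} ⊕ {l // ¬ vis l}) → ℕ) :
    (fun l => m (inj₁ vis l)) =
      glue vis (fun l => m (Sum.inl l)) (fun l => m (Sum.inr (Sum.inl l))) := by
  funext l
  unfold inj₁ glue
  split_ifs <;> rfl

lemma comp_inj₂ (m : {l // vis l} ⊕ ({l // ¬ vis l} ⊕ {l // ¬ vis l}) → ℕ) :
    (fun l => m (inj₂ vis l)) =
      glue vis (fun l => m (Sum.inl l)) (fun l => m (Sum.inr (Sum.inr l))) := by
  funext l
  unfold inj₂ glue
  split_ifs <;> rfl

end gluelemmas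

end Pool.Agent.Lib.Pf720pm
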