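import Pool.Agent.Lib.Pf720pm.Closure
import Pool.Agent.Lib.Pf720pm.Dioph
import Pool.Agent.Lib.Pf720pp.Final

/-!
# The Pinsker reduction for arbitrary polynomial exponents
-/

set_option autoImplicit false
set_option linter.unusedSectionVars false

open Finset MeasureTheory Filter Topology
open scoped ENNReal

namespace Pool.Agent.Lib.Pf720pm

open Pool.Agent.Lib.Pf720ae
open Pool.Agent.Lib.Pf720pi (pinskerW avg_reindex)
open Pool.Agent.Lib.Pf720pp (cvg_shift comap_pinsker)

/-- unrestricted convergence of the polynomial multiple averages with exponents in `Q` and a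
number of variables in `K`, of the bounded functions that are a.e. equal to an `m`-measurable
function -/
def PolC {X : Type} {mX : MeasurableSpace X} (μ : Measure X) {d : ℕ} (T : Fin d → Equiv.Perm X)
    (K : Set ℕ) (Q : (k : ℕ) → Set (Fin d → MvPolynomial (Fin k) ℤ)) (m : MeasurableSpace X) :
    Prop :=
  ∀ k ∈ K, ∀ (n : ℕ) (P : Fin n → Fin d → MvPolynomial (Fin k) ℤ) (f : Fin n → X → ℂ),
    (∀ j, P j ∈ Q k) →
    (∀ j, MemLp (f j) ⊤ μ ∧ AEStronglyMeasurable[m] (f j) μ) →
    ∀ᵐ x ∂μ, ∃ L : ℂ, Tendsto (fun M : Fin k → ℕ => (∏ l, (M l : ℂ))⁻¹ *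
      ∑ m ∈ Fintype.piFinset (fun l => Finset.Icc 1 (M l)),
        ∏ j, f j (pw T (fun i => MvPolynomial.eval (fun l => (m l : ℤ)) (P j i)) x))
      atTop (𝓝 L)

/-- closed under injective renaming of the variables -/
def RenC {d : ℕ} (Q : (k : ℕ) → Set (Fin d → MvPolynomial (Fin k) ℤ)) : Prop :=
  ∀ (k k' : ℕ) (σ : Fin k → Fin k'), Function.Injective σ → ∀ P ∈ Q k,
    (fun i => MvPolynomial.rename σ (P i)) ∈ Q k'

/-- the polynomial maps of a class, without constant terms, in any set of variables -/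
def cls {d : ℕ} (Q : (k : ℕ) → Set (Fin d → MvPolynomial (Fin k) ℤ)) (κ : Type) :
    Set ((κ → ℕ) → Fin d → ℤ) :=
  {e | ∃ (k : ℕ) (τ : Fin k → κ), Function.Injective τ ∧ ∃ P ∈ Q k, e = fun m i =>
    MvPolynomial.eval (fun l => (m (τ l) : ℤ)) (P i) - MvPolynomial.eval (fun _ => 0) (P i)}

lemma renClosed_cls {d : ℕ} (Q : (k : ℕ) → Set (Fin d → MvPolynomial (Fin k) ℤ)) :
    RenClosed (cls Q) := by
  rintro κ κ' σ hσ _ ⟨k, τ, hτ, P, hP, rfl⟩
  exact ⟨k, σ ∘ τ, hσ.comp hτ, P, hP, rfl⟩

lemma isPol_cls {d : ℕ} (Q : (k : ℕ) → Set (Fin d → MvPolynomial (Fin k) ℤ)) (κ : Type) :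
    ∀ e ∈ cls Q κ, IsPol e ∧ e 0 = 0 := by
  rintro _ ⟨k, τ, hτ, P, hP, rfl⟩
  constructor
  · refine ⟨fun i => MvPolynomial.rename τ (P i) - MvPolynomial.C
      (MvPolynomial.eval (fun _ => 0) (P i)), fun m i => ?_⟩
    beta_reduce
    rw [map_sub, MvPolynomial.eval_rename, MvPolynomial.eval_C]
    rfl
  · funext i
    simp

lemma polR_of_polC {X : Type} {m : MeasurableSpace X} {mX : MeasurableSpace X} {μ : Measure X}
    [IsProbabilityMeasure μ] (hm : m ≤ mX) {d : ℕ} (T : Fin d → Equiv.Perm X)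
    (hcomm : ∀ i i', T i * T i' = T i' * T i)
    (hinv : ∀ v : Fin d → ℤ, MeasurableSpace.comap (fun x => pw T v x) m ≤ m)
    (K : Set ℕ) (Q : (k : ℕ) → Set (Fin d → MvPolynomial (Fin k) ℤ)) (hQ : RenC Q)
    (hC : PolC μ T K Q m) : PolR μ K (cls Q) (fun e x => pw T e x) m := by
  intro κ _ _ J _ _ e₀ F hκ he₀ hFm hF1
  classical
  choose k τ hτ P hP he using he₀
  set cst : J → Fin d → ℤ := fun j i => MvPolynomial.eval (fun _ => 0) (P j i) with hcst
  set eκ : κ ≃ Fin (Fintype.card κ) := Fintype.equivFin κ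
  set eJ : J ≃ Fin (Fintype.card J) := Fintype.equivFin J
  have hFm' : ∀ j, Measurable[m] fun x => F j (pw T (-cst j) x) := by
    intro j
    have h1 : Measurable[m.comap (fun x => pw T (-cst j) x)] fun x =>
        F j (pw T (-cst j) x) := by
      intro s hs
      exact ⟨F j ⁻¹' s, hFm j hs, rfl⟩
    exact h1.mono (hinv _) le_rfl
  have h1 := hC _ hκ (Fintype.card J)
    (fun j i => MvPolynomial.rename (eκ ∘ τ (eJ.symm j)) (P (eJ.symm j) i))
    (fun j x => ((F (eJ.symm j) (pw T (-cst (eJ.symm j)) x) : ℝ) : ℂ))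
    (fun j => hQ _ _ _ (eκ.injective.comp (hτ _)) _ (hP _)) (fun j => ⟨?_, ?_⟩)
  · filter_upwards [h1] with x hx
    obtain ⟨L, hL⟩ := hx
    have h2 := (Complex.continuous_re.tendsto L).comp hL
    have hre : Tendsto (fun M : κ → ℕ => fun l : Fin (Fintype.card κ) => M (eκ.symm l))
        atTop atTop := by
      rw [tendsto_atTop]
      intro b
      filter_upwards [eventually_ge_atTop (fun l : κ => b (eκ l))] with M hM l
      have := hM (eκ.symm l)
      simpa using this
    refine (cvg_shift (u := fun m : κ → ℕ => ∏ j, F j (pw T (e₀ j m) x))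
      (fun m => abs_prod_le_one _ _ fun j => hF1 j _)).1 ?_
    refine ⟨L.re, (h2.comp hre).congr fun M => ?_⟩
    rw [avg_reindex eκ M]
    simp only [Function.comp]
    rw [sum_Icc_eq]
    unfold avg Pool.Agent.Lib.Pf720ae.box
    have e1 : ∀ m : Fin (Fintype.card κ) → ℕ, ∏ j : Fin (Fintype.card J),
        ((F (eJ.symm j) (pw T (-cst (eJ.symm j))
          (pw T (fun i => MvPolynomial.eval (fun l => (((m + 1) l : ℕ) : ℤ))
            (MvPolynomial.rename (fun l => eκ (τ (eJ.symm j) l)) (P (eJ.symm j) i))) x)) : ℝ) : ℂ) =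
        ((∏ j, F j (pw T (e₀ j ((fun l => m (eκ l)) + 1)) x) : ℝ) : ℂ) := by
      intro m
      rw [← Complex.ofReal_prod]
      congr 1
      refine Fintype.prod_equiv eJ.symm _ _ fun j => ?_
      have e2 : pw T (e₀ (eJ.symm j) ((fun l => m (eκ l)) + 1)) =
          pw T (-cst (eJ.symm j)) * pw T (fun i =>
            MvPolynomial.eval (fun l => (((m + 1) l : ℕ) : ℤ))
            (MvPolynomial.rename (fun l => eκ (τ (eJ.symm j) l)) (P (eJ.symm j) i))) := by
        rw [← pw_add T hcomm]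
        congr 1
        rw [he (eJ.symm j)]
        funext i
        simp only [Pi.add_apply, Pi.neg_apply, hcst]
        rw [MvPolynomial.eval_rename]
        simp only [Function.comp_def, Pi.one_apply]
        ring
      rw [e2]
      rfl
    have e1' := e1
    simp only [Function.comp_def] at e1' ⊢
    simp only [e1']
    rw [← Complex.ofReal_sum]
    have e3 : (∏ l : Fin (Fintype.card κ), ((M (eκ.symm l) : ℕ) : ℂ))⁻¹ =
        (((∏ l : Fin (Fintype.card κ), ((M (eκ.symm l) : ℕ) : ℝ))⁻¹ : ℝ) : ℂ) := by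
      push_cast
      rfl
    rw [e3, ← Complex.ofReal_mul, Complex.ofReal_re]
  · refine MemLp.of_bound ?_ 1 (Eventually.of_forall fun x => ?_)
    · exact (Complex.measurable_ofReal.comp ((hFm' _).mono hm le_rfl)).aestronglyMeasurable
    · rw [Complex.norm_real]
      exact hF1 _ _
  · exact (Complex.measurable_ofReal.comp (hFm' _)).aestronglyMeasurable

theorem polC_of_polR {X : Type} {mX : MeasurableSpace X} {μ : Measure X}
    [IsProbabilityMeasure μ] {d : ℕ} (T : Fin d → Equiv.Perm X)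
    (hT : ∀ i, Measurable (T i) ∧ Measurable (T i).symm ∧ MeasurePreserving (T i) μ μ)
    (hcomm : ∀ i i', T i * T i' = T i' * T i) (K : Set ℕ)
    (Q : (k : ℕ) → Set (Fin d → MvPolynomial (Fin k) ℤ))
    (hR : PolR μ K (cls Q) (fun e x => pw T e x) mX) : PolC μ T K Q mX := by
  intro k hk n P f hPQ hf
  have h1 := lift_complex (μ := μ) (κ := Fin k)
    (fun j m => pw T (fun i => MvPolynomial.eval (fun l => (((m + 1) l : ℕ) : ℤ)) (P j i)))
    (fun j m => mp_pw T hT _) ?_ f
    (fun j => (hf j).1)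
  · filter_upwards [h1] with x hx
    obtain ⟨L, hL⟩ := hx
    refine ⟨L, hL.congr fun M => ?_⟩
    rw [sum_Icc_eq]
  · intro F hFm hF1
    set cst : Fin n → Fin d → ℤ := fun j i => MvPolynomial.eval (fun _ => 0) (P j i) with hcst
    have h2 := hR (Fin k) (Fin n)
      (fun j m i => MvPolynomial.eval (fun l => (m l : ℤ)) (P j i) - cst j i)
      (fun j x => F j (pw T (cst j) x)) (by rw [Fintype.card_fin]; exact hk)
      (fun j => ⟨k, id, Function.injective_id, P j, hPQ j, rfl⟩)
      (fun j => (hFm j).comp (mp_pw T hT _).measurable) (fun j x => hF1 j _)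
    filter_upwards [h2] with x hx
    have h3 : Cvg fun m : Fin k → ℕ => ∏ j, F j
        (pw T (fun i => MvPolynomial.eval (fun l => (m l : ℤ)) (P j i)) x) := by
      refine hx.congr fun m => Finset.prod_congr rfl fun j _ => ?_
      have e1 : (fun i => MvPolynomial.eval (fun l => (m l : ℤ)) (P j i)) =
          cst j + fun i => MvPolynomial.eval (fun l => (m l : ℤ)) (P j i) - cst j i := by
        funext i
        simp only [Pi.add_apply]
        ring
      rw [e1, pw_add T hcomm (cst j)]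
      rfl
    exact (cvg_shift (u := fun m : Fin k → ℕ => ∏ j, F j
        (pw T (fun i => MvPolynomial.eval (fun l => (m l : ℤ)) (P j i)) x))
      (fun m => abs_prod_le_one _ _ fun j => hF1 j _)).2 h3

/-- the Pinsker reduction for arbitrary polynomial exponents -/
theorem pinsker_reduction {X : Type} {mX : MeasurableSpace X} {μ : Measure X}
    [IsProbabilityMeasure μ] {d : ℕ} (T : Fin d → Equiv.Perm X)
    (hT : ∀ i, Measurable (T i) ∧ Measurable (T i).symm ∧ MeasurePreserving (T i) μ μ)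
    (hcomm : ∀ i i', T i * T i' = T i' * T i) (K : Set ℕ)
    (hK : ∀ v w, 1 ≤ v → v + w ∈ K → v + 2 * w ∈ K)
    (Q : (k : ℕ) → Set (Fin d → MvPolynomial (Fin k) ℤ)) (hQ : RenC Q) :
    PolC μ T K Q mX ↔ PolC μ T K Q (pinskerW μ fun e x => pw T e x) := by
  have hle : pinskerW μ (fun e x => pw T e x) ≤ mX := by
    refine MeasurableSpace.generateFrom_le ?_
    rintro s ⟨hs, -⟩
    exact hs
  constructor
  · intro h k hk n q f hqQ hf
    exact h k hk n q f hqQ fun j => ⟨(hf j).1, (hf j).1.1⟩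
  · intro h
    refine polC_of_polR T hT hcomm K Q ?_
    obtain ⟨φ, hφ⟩ := exists_dio d
    refine polR_of_pinsker (fun e x => pw T e x) (fun x => by rw [pw_zero]; rfl)
      (fun a b x => by rw [pw_add T hcomm]; rfl) (fun a => mp_pw T hT a) φ hφ K hK (cls Q)
      (renClosed_cls Q) (isPol_cls Q) (polR_of_polC hle T hcomm (fun v => ?_) K Q hQ h)
    exact comap_pinsker (fun e x => pw T e x) (fun a b x => by rw [pw_add T hcomm]; rfl)
        (fun a => mp_pw T hT a) v

end Pool.Agent.Lib.Pf720pm
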