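import Pool.Agent.Lib.Pf720pm.Final
import Pool.Agent.Lib.Pf720gs.GFinal

/-!
# The reduction to a factor containing the Pinsker factor
-/

set_option autoImplicit false

open Finset MeasureTheory Filter Topology
open scoped ENNReal

namespace Pool.Agent.Lib.Pf720pm

open Pool.Agent.Lib.Pf720ae
open Pool.Agent.Lib.Pf720pi (pinskerW)

theorem factor_reduction {X : Type} (𝒩 : MeasurableSpace X) {mX : MeasurableSpace X}
    {μ : Measure X} [IsProbabilityMeasure μ] {d : ℕ} (T : Fin d → Equiv.Perm X)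
    (hT : ∀ i, Measurable (T i) ∧ Measurable (T i).symm ∧ MeasurePreserving (T i) μ μ)
    (hcomm : ∀ i i', T i * T i' = T i' * T i) (K : Set ℕ) (hK : K = {1} ∨ K = Set.univ)
    (Q : (k : ℕ) → Set (Fin d → MvPolynomial (Fin k) ℤ)) (hQ : RenC Q)
    (s : Set (Set X)) (hs : pinskerW μ (fun e x => pw T e x) = MeasurableSpace.generateFrom s)
    (h : ∀ A ∈ s, ∃ B, MeasurableSet[𝒩] B ∧ A =ᵐ[μ] B) : PolC μ T K Q mX ↔ PolC μ T K Q 𝒩 := by
  constructor
  · intro h k hk n q f hqQ hf
    exact h k hk n q f hqQ fun j => ⟨(hf j).1, (hf j).1.1⟩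
  · intro h𝒩
    have hK' : ∀ v w, 1 ≤ v → v + w ∈ K → v + 2 * w ∈ K := by
      intro v w hv hvw
      rcases hK with rfl | rfl
      · rw [Set.mem_singleton_iff] at hvw ⊢
        omega
      · exact Set.mem_univ _
    rw [pinsker_reduction T hT hcomm K hK' Q hQ]
    have h1 : pinskerW μ (fun e x => pw T e x) ≤ eventuallyMeasurableSpace 𝒩 (ae μ) := by
      rw [hs]
      exact MeasurableSpace.generateFrom_le h
    intro k hk n q f hqQ hf
    exact h𝒩 k hk n q f hqQ fun j =>
      ⟨(hf j).1, Pf720gs.aesm_of_mod (fun s hs => h1 s hs) (hf j).2⟩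

/-- almost surely constant functions -/
lemma polC_bot {X : Type} {mX : MeasurableSpace X} {μ : Measure X} [IsProbabilityMeasure μ] {d : ℕ}
    (T : Fin d → Equiv.Perm X)
    (hT : ∀ i, Measurable (T i) ∧ Measurable (T i).symm ∧ MeasurePreserving (T i) μ μ)
    (K : Set ℕ) (Q : (k : ℕ) → Set (Fin d → MvPolynomial (Fin k) ℤ)) : PolC μ T K Q ⊥ := by
  intro k _ n P f _ hf
  have hX : Nonempty X := by
    by_contra h
    rw [not_nonempty_iff] at h
    have := measure_univ (μ := μ)
    rw [Set.univ_eq_empty_iff.2 h, measure_empty] at this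
    exact zero_ne_one this
  obtain ⟨x₀⟩ := hX
  have hc : ∀ j, ∃ c : ℂ, ∀ᵐ x ∂μ, f j x = c := by
    intro j
    obtain ⟨g, hg, hfg⟩ := (hf j).2
    have hgm : Measurable[⊥] g := hg.measurable
    refine ⟨g x₀, ?_⟩
    filter_upwards [hfg] with x hx
    rw [hx]
    have h1 : MeasurableSet[⊥] (g ⁻¹' {g x₀}) := hgm (measurableSet_singleton _)
    rw [MeasurableSpace.measurableSet_bot_iff] at h1
    rcases h1 with h1 | h1
    · have : x₀ ∈ g ⁻¹' {g x₀} := rfl
      rw [h1] at this
      exact absurd this (Set.notMem_empty _)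
    · have : x ∈ g ⁻¹' {g x₀} := by rw [h1]; exact Set.mem_univ _
      exact this
  choose c hc using hc
  have hall : ∀ᵐ x ∂μ, ∀ (j : Fin n) (m : Fin k → ℕ),
      f j (pw T (fun i => MvPolynomial.eval (fun l => (m l : ℤ)) (P j i)) x) = c j := by
    rw [ae_all_iff]
    intro j
    rw [ae_all_iff]
    intro m
    exact (mp_pw T hT _).quasiMeasurePreserving.ae (hc j)
  filter_upwards [hall] with x hx
  refine ⟨∏ j, c j, tendsto_const_nhds.congr' ?_⟩
  have hpos : ∀ᶠ M : Fin k → ℕ in atTop, ∀ l, 0 < M l := eventually_pos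
  filter_upwards [hpos] with M hM
  simp only [hx]
  rw [Finset.sum_const, Fintype.card_piFinset, nsmul_eq_mul]
  simp only [Nat.card_Icc, Nat.add_sub_cancel]
  push_cast
  rw [← mul_assoc, inv_mul_cancel₀, one_mul]
  exact Finset.prod_ne_zero_iff.2 fun l _ => by exact_mod_cast (hM l).ne'

/-- completely positive entropy -/
theorem cpe {X : Type} {mX : MeasurableSpace X}
    {μ : Measure X} [IsProbabilityMeasure μ] {d : ℕ} (T : Fin d → Equiv.Perm X)
    (hT : ∀ i, Measurable (T i) ∧ Measurable (T i).symm ∧ MeasurePreserving (T i) μ μ)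
    (hcomm : ∀ i i', T i * T i' = T i' * T i)
    (s : Set (Set X)) (hs : pinskerW μ (fun e x => pw T e x) = MeasurableSpace.generateFrom s)
    (hsm : ∀ A ∈ s, MeasurableSet A)
    (h : ∀ A ∈ s, μ A = 0 ∨ μ A = 1) : PolC μ T Set.univ (fun _ => Set.univ) mX := by
  rw [factor_reduction ⊥ T hT hcomm Set.univ (Or.inr rfl) (fun _ => Set.univ)
    (fun _ _ _ _ _ _ => Set.mem_univ _) s hs]
  · exact polC_bot T hT _ _
  · intro A hA
    rcases h A hA with h0 | h1
    · exact ⟨∅, @MeasurableSet.empty X ⊥, ae_eq_empty.2 h0⟩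
    · refine ⟨Set.univ, @MeasurableSet.univ X ⊥, ae_eq_univ.2 ?_⟩
      rw [prob_compl_eq_zero_iff (hsm A hA)]
      exact h1

end Pool.Agent.Lib.Pf720pm
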