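import Pool.Agent.Lib.Pf720pm.Dens
import Pool.Agent.Lib.Pf720pp.Core

/-!
# Almost sure convergence for products of delayed martingale differences: general exponents

Adaptation of `Pool.Agent.Lib.Pf720pp.core_ae` (file Pf720pp/Core.lean), where `LineBd` (a uniform
bound on all lines) is replaced by `LB` (a bound on average, outside an exceptional set of lines).
For each pair `(j, l)` with `dep j l` let `E_{j,l}, cnt_{j,l}, C_{j,l}, δ_{j,l}` be the data of
`LB (ψ j) l p`, and let `E` be the union of the `E_{j,l}` (finitely many; its density tends to zero).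
* `u m x = if m ∉ E ∧ Good ψ p m then (∏ j, Y j m x) * W m x else 0` (good part). The difference of
  the averages of the product and of `u` is at most the density of `E` plus the sum over pairs
  `i ≠ j` of the densities in `hne`, which tends to zero.
* Fix `l`, `S = {j | dep j l}` (nonempty by `hvis`), `E_l = ⋃_{j ∈ S} E_{j,l}`: invariant in the
  direction `l`, and contained in `E`. Follow `mean_sq_le`: `(avg M u)² ≤ avg M` of the squares of the
  line averages (with the factors `j ∉ S` pulled out, `hYinv`); the line average vanishes if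
  `m ∈ E_l`; if `m ∉ E_l` then `line_bound` with the constants `cnt_{j,l} m (M l)`: follow its proof
  (the correlation of two points of the line is zero unless both are good, outside `E`, and
  `|ψ i m - ψ j m'| ≤ p` for some `i, j ∈ S`; it is at most one then):
  `∫ (line average)² ≤ ∑_{i ∈ S} ∑_{j ∈ S} cnt_{j,l} m (M l) / M l`.
  Average over `m`: `∫ (avg M u)² ≤ card S ∑_{j ∈ S} C_{j,l} (M l) ^ (-δ_{j,l})`.
* Choose `D'` with `(1/2) ^ D' ≤ δ_{j,l}` for all `j, l`, and a constant `A` bounding all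
  `card S ∑ C_{j,l}`: `Pool.Agent.Lib.Pf720ae.Alg.ae_tendsto` with `bt D' N = 4 N ^ (-(1/2) ^ D')`
  applied to `c u`, `c = (1 + A)⁻¹` (as in `ae_of_bound`).
-/

set_option autoImplicit false
set_option linter.unusedSectionVars false

open Finset MeasureTheory Filter Topology
open scoped ENNReal

namespace Pool.Agent.Lib.Pf720pm

open Pool.Agent.Lib.Pf720ae
open Pool.Agent.Lib.Pf720pp.CoreAux

namespace CoreLB

variable {κ : Type} [Fintype κ] [DecidableEq κ]
variable {J : Type} [Fintype J] [DecidableEq J] {X : Type} {mX : MeasurableSpace X}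
  {μ : Measure X}

open Classical in
/-- the good part of the product over `S` -/
noncomputable def vG (G : (κ → ℕ) → Prop) (Y : J → (κ → ℕ) → X → ℝ)
    (W : (κ → ℕ) → X → ℝ) (S : Finset J) (m : κ → ℕ) (x : X) : ℝ :=
  if G m then (∏ j ∈ S, Y j m x) * W m x else 0

lemma abs_vG_le (G : (κ → ℕ) → Prop) {Y : J → (κ → ℕ) → X → ℝ}
    (hY1 : ∀ j m x, |Y j m x| ≤ 1) {W : (κ → ℕ) → X → ℝ} (hW1 : ∀ m x, |W m x| ≤ 1)
    (S : Finset J) (m : κ → ℕ) (x : X) : |vG G Y W S m x| ≤ 1 := by
  unfold vG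
  split_ifs
  · rw [abs_mul]
    exact mul_le_one₀ (abs_prod_le_one S fun j _ => hY1 j m x) (abs_nonneg _) (hW1 m x)
  · simp

lemma measurable_vG (G : (κ → ℕ) → Prop) {Y : J → (κ → ℕ) → X → ℝ}
    (hY : ∀ j m, Measurable (Y j m)) {W : (κ → ℕ) → X → ℝ} (hW : ∀ m, Measurable (W m))
    (S : Finset J) (m : κ → ℕ) : Measurable (vG G Y W S m) := by
  unfold vG
  split_ifs
  · exact (Finset.measurable_fun_prod _ fun j _ => hY j m).mul (hW m)
  · exact measurable_const

open Classical in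
/-- the correlation of two points of the good part -/
lemma corr_vG_le [IsProbabilityMeasure μ] (F : ℝ → MeasurableSpace X) {p : ℝ}
    (Y : J → (κ → ℕ) → X → ℝ)
    (ψ : J → (κ → ℕ) → ℝ) (hY1 : ∀ j m x, |Y j m x| ≤ 1)
    (hYm : ∀ j m s, ψ j m < s → Measurable[F s] (Y j m))
    (hY0 : ∀ j m (h : X → ℝ), Measurable[F (ψ j m - p)] h → (∀ x, |h x| ≤ 1) →
      ∫ x, Y j m x * h x ∂μ = 0)
    (W : (κ → ℕ) → X → ℝ) (hW1 : ∀ m x, |W m x| ≤ 1) (hWm : ∀ m s, Measurable[F s] (W m))
    {G : (κ → ℕ) → Prop} (hG : ∀ m, G m → Good ψ p m)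
    (S : Finset J) (hS : S.Nonempty) (m m' : κ → ℕ) :
    ∫ x, vG G Y W S m x * vG G Y W S m' x ∂μ ≤
      ∑ i ∈ S, ∑ j ∈ S, if |ψ i m - ψ j m'| ≤ p then (1 : ℝ) else 0 := by
  have hnn : (0 : ℝ) ≤ ∑ i ∈ S, ∑ j ∈ S, if |ψ i m - ψ j m'| ≤ p then (1 : ℝ) else 0 :=
    Finset.sum_nonneg fun i _ => Finset.sum_nonneg fun j _ => by split_ifs <;> norm_num
  by_cases hg : G m
  · by_cases hg' : G m'
    · have := corr_le (μ := μ) F Y ψ hY1 hYm hY0 W hW1 hWm S hS m m'
      refine le_trans (le_of_eq ?_) this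
      congr 1
      funext x
      unfold vG vv
      rw [if_pos hg, if_pos hg', if_pos (hG m hg), if_pos (hG m' hg')]
    · have h0 : ∀ x, vG G Y W S m x * vG G Y W S m' x = 0 := fun x => by
        unfold vG
        rw [if_neg hg', mul_zero]
      simp only [h0, integral_zero]
      exact hnn
  · have h0 : ∀ x, vG G Y W S m x * vG G Y W S m' x = 0 := fun x => by
      unfold vG
      rw [if_neg hg, zero_mul]
    simp only [h0, integral_zero]
    exact hnn

/-- the mean square of the averages along a line -/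
lemma line_vG [IsProbabilityMeasure μ] (F : ℝ → MeasurableSpace X) (hle : ∀ t, F t ≤ mX)
    {p : ℝ}
    (Y : J → (κ → ℕ) → X → ℝ)
    (ψ : J → (κ → ℕ) → ℝ) (hY1 : ∀ j m x, |Y j m x| ≤ 1)
    (hYm : ∀ j m s, ψ j m < s → Measurable[F s] (Y j m))
    (hY0 : ∀ j m (h : X → ℝ), Measurable[F (ψ j m - p)] h → (∀ x, |h x| ≤ 1) →
      ∫ x, Y j m x * h x ∂μ = 0)
    (W : (κ → ℕ) → X → ℝ) (hW1 : ∀ m x, |W m x| ≤ 1) (hWm : ∀ m s, Measurable[F s] (W m))
    {G : (κ → ℕ) → Prop} (hG : ∀ m, G m → Good ψ p m)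
    (S : Finset J) (hS : S.Nonempty) (l : κ) (C : J → ℝ) (m : κ → ℕ) {N : ℕ}
    (hl : ∀ j ∈ S, ∀ r : ℝ, (((range N).filter fun t : ℕ =>
      |r + ψ j (Function.update m l t)| ≤ p).card : ℝ) ≤ C j)
    (hN : 0 < N) :
    ∫ x, ((N : ℝ)⁻¹ * ∑ t ∈ range N, vG G Y W S (Function.update m l t) x) ^ 2 ∂μ ≤
      (∑ _i ∈ S, ∑ j ∈ S, C j) / N := by
  have hN' : (0 : ℝ) < N := by exact_mod_cast hN
  have hYM : ∀ j m, Measurable (Y j m) := fun j m =>
    (hYm j m (ψ j m + 1) (by linarith)).mono (hle _) le_rfl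
  have hWM : ∀ m, Measurable (W m) := fun m => (hWm m 0).mono (hle _) le_rfl
  set v : ℕ → X → ℝ := fun t => vG G Y W S (Function.update m l t) with hv
  have hvm : ∀ t, Measurable (v t) := fun t => measurable_vG G hYM hWM S _
  have hv1 : ∀ t x, |v t x| ≤ 1 := fun t x => abs_vG_le G hY1 hW1 S _ x
  have h1 : ∀ x, ((N : ℝ)⁻¹ * ∑ t ∈ range N, vG G Y W S (Function.update m l t) x) ^ 2 =
      (N : ℝ)⁻¹ ^ 2 * ∑ t ∈ range N, ∑ t' ∈ range N, v t x * v t' x := by
    intro x
    rw [mul_pow, sq (∑ t ∈ range N, _), Finset.sum_mul_sum]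
  simp_rw [h1]
  have hI : ∀ t t', Integrable (fun x => v t x * v t' x) μ := fun t t' =>
    integrable_bdd ((hvm t).mul (hvm t')) (C := 1) fun x => by
      rw [abs_mul]
      exact mul_le_one₀ (hv1 t x) (abs_nonneg _) (hv1 t' x)
  rw [integral_const_mul, integral_finsetSum _ fun t _ => integrable_finsetSum _ fun t' _ =>
    hI t t']
  have h2 : ∀ t ∈ range N, ∫ x, ∑ t' ∈ range N, v t x * v t' x ∂μ ≤
      ∑ _i ∈ S, ∑ j ∈ S, C j := by
    intro t _
    rw [integral_finsetSum _ fun t' _ => hI t t']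
    classical
    refine (Finset.sum_le_sum fun t' _ => corr_vG_le (μ := μ) F Y ψ hY1 hYm hY0 W hW1 hWm hG S hS
      (Function.update m l t) (Function.update m l t')).trans ?_
    rw [Finset.sum_comm]
    refine Finset.sum_le_sum fun i _ => ?_
    rw [Finset.sum_comm]
    refine Finset.sum_le_sum fun j hj => ?_
    rw [← Finset.sum_filter, Finset.sum_const, nsmul_eq_mul, mul_one]
    have h3 := hl j hj (-ψ i (Function.update m l t))
    refine le_trans (le_of_eq ?_) h3
    congr 2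
    ext t'
    simp only [Finset.mem_filter]
    rw [abs_sub_comm, neg_add_eq_sub]
  calc (N : ℝ)⁻¹ ^ 2 * ∑ t ∈ range N, ∫ x, ∑ t' ∈ range N, v t x * v t' x ∂μ
      ≤ (N : ℝ)⁻¹ ^ 2 * ∑ t ∈ range N, ∑ _i ∈ S, ∑ j ∈ S, C j := by
        refine mul_le_mul_of_nonneg_left (Finset.sum_le_sum h2) (by positivity)
    _ = (∑ _i ∈ S, ∑ j ∈ S, C j) / N := by
        rw [Finset.sum_const, card_range, nsmul_eq_mul]
        field_simp

/-- the mean square of the averages of the good part -/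
lemma mean_vG [IsProbabilityMeasure μ]
    {Y : J → (κ → ℕ) → X → ℝ} (hYM : ∀ j m, Measurable (Y j m))
    (hY1 : ∀ j m x, |Y j m x| ≤ 1)
    (l : κ) (S : Finset J)
    (hYinv : ∀ j ∉ S, ∀ m t x, Y j (Function.update m l t) x = Y j (Function.update m l 0) x)
    {W : (κ → ℕ) → X → ℝ} (hWM : ∀ m, Measurable (W m)) (hW1 : ∀ m x, |W m x| ≤ 1)
    (G : (κ → ℕ) → Prop) (M : κ → ℕ) (hM : ∀ l, 0 < M l) (K : (κ → ℕ) → ℝ)
    (hK : ∀ m, ∫ x, ((M l : ℝ)⁻¹ * ∑ t ∈ range (M l),
      vG G Y W S (Function.update m l t) x) ^ 2 ∂μ ≤ K m) :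
    ∫ x, (avg M fun m => vG G Y W Finset.univ m x) ^ 2 ∂μ ≤ avg M K := by
  have hMl : (0 : ℝ) < M l := by exact_mod_cast hM l
  -- pointwise bound
  have hpt : ∀ x, (avg M fun m => vG G Y W Finset.univ m x) ^ 2 ≤ avg M fun m =>
      ((M l : ℝ)⁻¹ * ∑ t ∈ range (M l), vG G Y W S (Function.update m l t) x) ^ 2 := by
    intro x
    rw [Alg.avg_update M hM l]
    refine (avg_sq_le M hM _).trans (avg_mono M fun m => ?_)
    rw [← sq_abs ((M l : ℝ)⁻¹ * ∑ t ∈ range (M l), vG G Y W Finset.univ (Function.update m l t) x),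
      ← sq_abs ((M l : ℝ)⁻¹ * ∑ t ∈ range (M l), vG G Y W S (Function.update m l t) x)]
    refine pow_le_pow_left₀ (abs_nonneg _) ?_ 2
    have h3 : ∑ t ∈ range (M l), vG G Y W Finset.univ (Function.update m l t) x =
        (∏ j ∈ Finset.univ.filter (fun j => ¬ j ∈ S), Y j (Function.update m l 0) x) *
        ∑ t ∈ range (M l), vG G Y W S (Function.update m l t) x := by
      rw [Finset.mul_sum]
      refine Finset.sum_congr rfl fun t _ => ?_
      simp only [vG]
      split_ifs with hg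
      · rw [← Finset.prod_filter_mul_prod_filter_not Finset.univ (fun j => j ∈ S)]
        have h4 : ∏ j ∈ Finset.univ.filter (fun j => ¬ j ∈ S), Y j (Function.update m l t) x =
            ∏ j ∈ Finset.univ.filter (fun j => ¬ j ∈ S), Y j (Function.update m l 0) x :=
          Finset.prod_congr rfl fun j hj => hYinv j (Finset.mem_filter.1 hj).2 m t x
        have h5 : Finset.univ.filter (fun j => j ∈ S) = S := by ext j; simp
        rw [h4, h5]
        ring
      · ring
    rw [h3, abs_mul, abs_mul, abs_mul]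
    have h5 := abs_prod_le_one (Finset.univ.filter (fun j => ¬ j ∈ S))
      (f := fun j => Y j (Function.update m l 0) x) fun j _ => hY1 j _ x
    calc |(M l : ℝ)⁻¹| * (|∏ j ∈ Finset.univ.filter (fun j => ¬ j ∈ S),
          Y j (Function.update m l 0) x| *
          |∑ t ∈ range (M l), vG G Y W S (Function.update m l t) x|)
        ≤ |(M l : ℝ)⁻¹| * (1 *
          |∑ t ∈ range (M l), vG G Y W S (Function.update m l t) x|) := by gcongr
      _ = _ := by rw [one_mul]
  -- integrate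
  have hvm : ∀ m, Measurable fun x =>
      ((M l : ℝ)⁻¹ * ∑ t ∈ range (M l), vG G Y W S (Function.update m l t) x) ^ 2 :=
    fun m => ((Finset.measurable_fun_sum _ fun t _ =>
      measurable_vG G hYM hWM S _).const_mul _).pow_const 2
  have hvb : ∀ m x, |((M l : ℝ)⁻¹ * ∑ t ∈ range (M l),
      vG G Y W S (Function.update m l t) x) ^ 2| ≤ 1 := by
    intro m x
    rw [abs_pow]
    refine pow_le_one₀ (abs_nonneg _) ?_
    rw [abs_mul, abs_of_pos (inv_pos.2 hMl), inv_mul_le_iff₀ hMl, mul_one]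
    refine (Finset.abs_sum_le_sum_abs _ _).trans ?_
    refine (Finset.sum_le_sum fun t _ => abs_vG_le G hY1 hW1 S _ x).trans ?_
    simp
  have hI : ∀ m, Integrable (fun x =>
      ((M l : ℝ)⁻¹ * ∑ t ∈ range (M l), vG G Y W S (Function.update m l t) x) ^ 2) μ :=
    fun m => integrable_bdd (hvm m) (hvb m)
  calc ∫ x, (avg M fun m => vG G Y W Finset.univ m x) ^ 2 ∂μ
      ≤ ∫ x, (avg M fun m => ((M l : ℝ)⁻¹ * ∑ t ∈ range (M l),
          vG G Y W S (Function.update m l t) x) ^ 2) ∂μ := by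
        refine integral_mono_of_nonneg (Eventually.of_forall fun x => sq_nonneg _) ?_
          (Eventually.of_forall hpt)
        unfold avg
        exact (integrable_finsetSum _ fun m _ => hI m).const_mul _
    _ = avg M fun m => ∫ x, ((M l : ℝ)⁻¹ * ∑ t ∈ range (M l),
          vG G Y W S (Function.update m l t) x) ^ 2 ∂μ := by
        unfold avg
        rw [integral_const_mul, integral_finsetSum _ fun m _ => hI m]
    _ ≤ _ := avg_mono M hK

/-- mean-square bounds imply convergence -/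
lemma ae_of_bound' [Nonempty κ] [IsProbabilityMeasure μ] {u : (κ → ℕ) → X → ℝ}
    (hum : ∀ m, Measurable (u m)) (hu1 : ∀ m x, |u m x| ≤ 1) {A : ℝ} (hA0 : 0 ≤ A) (D : ℕ)
    (hmain : ∀ M : κ → ℕ, (∀ l, 0 < M l) → ∀ l,
      ∫ x, (avg M fun m => u m x) ^ 2 ∂μ ≤ A * (M l : ℝ) ^ (-(1 / 2 : ℝ) ^ D)) :
    ∀ᵐ x ∂μ, Tendsto (fun M : κ → ℕ => avg M fun m => u m x) atTop (𝓝 0) := by
  obtain ⟨c, hc⟩ : ∃ c : ℝ, c = (1 + A)⁻¹ := ⟨_, rfl⟩
  have hA1 : 0 < 1 + A := by linarith
  have hc0 : 0 < c := by rw [hc]; exact inv_pos.2 hA1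
  have hc1 : c ≤ 1 := by rw [hc]; exact inv_le_one_of_one_le₀ (le_add_of_nonneg_right hA0)
  have hae := Alg.ae_tendsto (μ := μ) (u := fun m x => c * u m x)
    (fun m => (hum m).const_mul c) (fun m x => by
      rw [abs_mul, abs_of_pos hc0]
      exact mul_le_one₀ hc1 (abs_nonneg _) (hu1 m x)) D (by
    intro M hM l
    have hMl : (0 : ℝ) < M l := by exact_mod_cast hM l
    have h1 : ∀ x, (avg M fun m => c * u m x) ^ 2 = c ^ 2 * (avg M fun m => u m x) ^ 2 := by
      intro x
      rw [avg_smul, mul_pow]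
    simp_rw [h1]
    rw [integral_const_mul]
    unfold Alg.bt
    have hpos : 0 ≤ (M l : ℝ) ^ (-(1 / 2 : ℝ) ^ D) := Real.rpow_nonneg hMl.le _
    have h5 : c * A ≤ 1 := by
      rw [hc, inv_mul_le_iff₀ hA1]
      linarith
    have h4 : c ^ 2 * A ≤ 4 := by
      have h6 : c ^ 2 * A = c * (c * A) := by ring
      rw [h6]
      have h7 : 0 ≤ c * A := mul_nonneg hc0.le hA0
      calc c * (c * A) ≤ 1 * 1 := mul_le_mul hc1 h5 h7 zero_le_one
        _ ≤ 4 := by norm_num
    calc c ^ 2 * ∫ x, (avg M fun m => u m x) ^ 2 ∂μ ≤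
          c ^ 2 * (A * (M l : ℝ) ^ (-(1 / 2 : ℝ) ^ D)) :=
          mul_le_mul_of_nonneg_left (hmain M hM l) (by positivity)
      _ = c ^ 2 * A * (M l : ℝ) ^ (-(1 / 2 : ℝ) ^ D) := by ring
      _ ≤ _ := mul_le_mul_of_nonneg_right h4 hpos)
  filter_upwards [hae] with x hx
  have := hx.const_mul c⁻¹
  rw [mul_zero] at this
  refine this.congr fun M => ?_
  rw [avg_smul, ← mul_assoc, inv_mul_cancel₀ hc0.ne', one_mul]

/-- a common exponent -/
lemma exists_exp {I : Type} [Fintype I] (δ : I → ℝ) (hδ : ∀ i, 0 < δ i) :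
    ∃ D : ℕ, ∀ i, (1 / 2 : ℝ) ^ D ≤ δ i := by
  have h : ∀ i, ∃ D : ℕ, ∀ D', D ≤ D' → (1 / 2 : ℝ) ^ D' ≤ δ i := by
    intro i
    obtain ⟨D, hD⟩ := exists_pow_lt_of_lt_one (hδ i) (by norm_num : (1 / 2 : ℝ) < 1)
    exact ⟨D, fun D' h => (pow_le_pow_of_le_one (by norm_num) (by norm_num) h).trans hD.le⟩
  choose D hD using h
  exact ⟨∑ i, D i, fun i => hD i _ (Finset.single_le_sum (f := D) (fun _ _ => Nat.zero_le _)
    (Finset.mem_univ i))⟩

end CoreLB

open CoreLB

theorem core_lb {κ : Type} [Fintype κ] [DecidableEq κ] [Nonempty κ] {J : Type} [Fintype J]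
    [DecidableEq J] {X : Type} {mX : MeasurableSpace X} {μ : Measure X} [IsProbabilityMeasure μ]
    (F : ℝ → MeasurableSpace X) (hle : ∀ t, F t ≤ mX)
    (ψ : J → (κ → ℕ) → ℝ) (dep : J → κ → Prop) (p : ℝ) (hp : 0 ≤ p)
    (hne : ∀ i j, i ≠ j → Tendsto (fun M : κ → ℕ =>
      avg M fun m => if |ψ i m - ψ j m| ≤ p then (1 : ℝ) else 0) atTop (𝓝 0))
    (hdep : ∀ j l, dep j l → LB (ψ j) l p)
    (hvis : ∀ l : κ, ∃ j, dep j l)
    (Y : J → (κ → ℕ) → X → ℝ) (hY1 : ∀ j m x, |Y j m x| ≤ 1)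
    (hYm : ∀ j m s, ψ j m < s → Measurable[F s] (Y j m))
    (hY0 : ∀ j m (h : X → ℝ), Measurable[F (ψ j m - p)] h → (∀ x, |h x| ≤ 1) →
      ∫ x, Y j m x * h x ∂μ = 0)
    (hYinv : ∀ j l, ¬ dep j l → ∀ m t x,
      Y j (Function.update m l t) x = Y j (Function.update m l 0) x)
    (W : (κ → ℕ) → X → ℝ) (hW1 : ∀ m x, |W m x| ≤ 1) (hWm : ∀ m s, Measurable[F s] (W m)) :
    ∀ᵐ x ∂μ, Tendsto (fun M : κ → ℕ => avg M fun m => (∏ j, Y j m x) * W m x) atTop (𝓝 0) := by
  classical
  have hYM : ∀ j m, Measurable (Y j m) := fun j m =>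
    (hYm j m (ψ j m + 1) (by linarith)).mono (hle _) le_rfl
  have hWM : ∀ m, Measurable (W m) := fun m => (hWm m 0).mono (hle _) le_rfl
  -- the data
  have hdata : ∀ (j : J) (l : κ), ∃ (E : Set (κ → ℕ)) (cnt : (κ → ℕ) → ℕ → ℝ) (C δ : ℝ),
      0 ≤ C ∧ 0 < δ ∧ (∀ m t, Function.update m l t ∈ E ↔ m ∈ E) ∧
      Tendsto (fun M : κ → ℕ => avg M fun m => if m ∈ E then (1 : ℝ) else 0) atTop (𝓝 0) ∧
      (∀ m N, 0 ≤ cnt m N) ∧
      (dep j l → ∀ m, m ∉ E → ∀ (r : ℝ) (N : ℕ),
        (((range N).filter fun t : ℕ => |r + ψ j (Function.update m l t)| ≤ p).card : ℝ) ≤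
          cnt m N) ∧
      (∀ M : κ → ℕ, (∀ l, 0 < M l) →
        avg M (fun m => if m ∈ E then 0 else cnt m (M l) / M l) ≤ C * (M l : ℝ) ^ (-δ)) := by
    intro j l
    by_cases hd : dep j l
    · obtain ⟨E, cnt, C, δ, h1, h2, h3, h4, h5, h6, h7⟩ := hdep j l hd
      exact ⟨E, cnt, C, δ, h1, h2, h3, h4, h5, fun _ => h6, h7⟩
    · refine ⟨∅, fun _ _ => 0, 0, 1, le_rfl, one_pos, fun m t => by simp, ?_, fun _ _ => le_rfl,
        fun h => absurd h hd, fun M _ => ?_⟩
      · simp [avg]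
      · simp [avg]
  choose E cnt C δ hC hδ hEinv hEd hcnt hcount havg using hdata
  obtain ⟨D, hD⟩ := exists_exp (fun q : J × κ => δ q.1 q.2) fun q => hδ q.1 q.2
  -- the good part
  set G : (κ → ℕ) → Prop := fun m => (∀ j l, m ∉ E j l) ∧ Good ψ p m with hG
  have hGG : ∀ m, G m → Good ψ p m := fun m h => h.2
  set u : (κ → ℕ) → X → ℝ := vG G Y W Finset.univ with hu
  have hu1 : ∀ m x, |u m x| ≤ 1 := fun m x => abs_vG_le G hY1 hW1 _ m x
  have hum : ∀ m, Measurable (u m) := fun m => measurable_vG G hYM hWM _ m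
  set A : ℝ := ∑ _i : J, ∑ j : J, ∑ l : κ, C j l with hA
  have hA0 : 0 ≤ A := Finset.sum_nonneg fun _ _ => Finset.sum_nonneg fun _ _ =>
    Finset.sum_nonneg fun _ _ => hC _ _
  have hmain : ∀ M : κ → ℕ, (∀ l, 0 < M l) → ∀ l,
      ∫ x, (avg M fun m => u m x) ^ 2 ∂μ ≤ A * (M l : ℝ) ^ (-(1 / 2 : ℝ) ^ D) := by
    intro M hM l
    have hMl : (1 : ℝ) ≤ M l := by exact_mod_cast hM l
    have hMl0 : (0 : ℝ) < M l := by linarith
    set S : Finset J := Finset.univ.filter fun j => dep j l with hS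
    have hSne : S.Nonempty := by
      obtain ⟨j, hj⟩ := hvis l
      exact ⟨j, by simp [hS, hj]⟩
    have hSd : ∀ j ∈ S, dep j l := fun j hj => (Finset.mem_filter.1 hj).2
    have hline : ∀ m, ∫ x, ((M l : ℝ)⁻¹ * ∑ t ∈ range (M l),
        vG G Y W S (Function.update m l t) x) ^ 2 ∂μ ≤
        ∑ _i ∈ S, ∑ j ∈ S, (if m ∈ E j l then 0 else cnt j l m (M l) / M l) := by
      intro m
      have hnn : ∀ j, (0 : ℝ) ≤ if m ∈ E j l then 0 else cnt j l m (M l) / M l := by
        intro j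
        split_ifs
        · exact le_rfl
        · exact div_nonneg (hcnt j l m _) hMl0.le
      by_cases hm : ∀ j ∈ S, m ∉ E j l
      · have := line_vG (μ := μ) F hle Y ψ hY1 hYm hY0 W hW1 hWm hGG S hSne l
          (fun j => cnt j l m (M l)) m (N := M l)
          (fun j hj r => hcount j l (hSd j hj) m (hm j hj) r (M l)) (hM l)
        refine this.trans (le_of_eq ?_)
        rw [Finset.sum_div]
        refine Finset.sum_congr rfl fun i _ => ?_
        rw [Finset.sum_div]
        refine Finset.sum_congr rfl fun j hj => ?_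
        rw [if_neg (hm j hj)]
      · push Not at hm
        obtain ⟨j, hj, hmj⟩ := hm
        have h0 : ∀ t x, vG G Y W S (Function.update m l t) x = 0 := by
          intro t x
          unfold vG
          refine if_neg fun h => h.1 j l ((hEinv j l m t).2 hmj)
        simp only [h0, Finset.sum_const_zero, mul_zero, ne_eq, OfNat.ofNat_ne_zero,
          not_false_eq_true, zero_pow, integral_zero]
        exact Finset.sum_nonneg fun i _ => Finset.sum_nonneg fun j _ => hnn j
    have h1 := mean_vG (μ := μ) hYM hY1 l S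
      (fun j hj m t x => hYinv j l (fun h => hj (by simp [hS, h])) m t x) hWM hW1 G M hM _ hline
    refine h1.trans ?_
    have h2 : avg M (fun m => ∑ _i ∈ S, ∑ j ∈ S,
        (if m ∈ E j l then 0 else cnt j l m (M l) / M l)) =
        ∑ _i ∈ S, ∑ j ∈ S, avg M fun m => if m ∈ E j l then 0 else cnt j l m (M l) / M l := by
      unfold avg
      rw [Finset.sum_comm, Finset.mul_sum]
      refine Finset.sum_congr rfl fun i _ => ?_
      rw [Finset.sum_comm, Finset.mul_sum]
    rw [h2, hA, Finset.sum_mul]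
    have hp0 : 0 ≤ (M l : ℝ) ^ (-(1 / 2 : ℝ) ^ D) := Real.rpow_nonneg hMl0.le _
    refine (Finset.sum_le_sum_of_subset_of_nonneg (Finset.subset_univ S) fun i _ _ =>
      Finset.sum_nonneg fun j _ => avg_nonneg M fun m => ?_).trans
      (Finset.sum_le_sum fun i _ => ?_)
    · split_ifs
      · exact le_rfl
      · exact div_nonneg (hcnt j l m _) hMl0.le
    · rw [Finset.sum_mul]
      refine (Finset.sum_le_sum_of_subset_of_nonneg (Finset.subset_univ S) fun j _ _ =>
        avg_nonneg M fun m => ?_).trans (Finset.sum_le_sum fun j _ => ?_)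
      · split_ifs
        · exact le_rfl
        · exact div_nonneg (hcnt j l m _) hMl0.le
      · refine (havg j l M hM).trans ?_
        refine mul_le_mul ?_ ?_ (Real.rpow_nonneg hMl0.le _)
          (Finset.sum_nonneg fun l _ => hC j l)
        · exact Finset.single_le_sum (f := fun l => C j l) (fun l _ => hC j l) (Finset.mem_univ l)
        · exact Real.rpow_le_rpow_of_exponent_le hMl (neg_le_neg (hD (j, l)))
  have hae := ae_of_bound' (μ := μ) hum hu1 hA0 D hmain
  -- the bad part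
  have hbad : Tendsto (fun M : κ → ℕ => (∑ q : J × J, if q.1 ≠ q.2 then
      avg M (fun m => if |ψ q.1 m - ψ q.2 m| ≤ p then (1 : ℝ) else 0) else 0) +
      ∑ q : J × κ, avg M fun m => if m ∈ E q.1 q.2 then (1 : ℝ) else 0) atTop (𝓝 0) := by
    have h1 : ∀ q : J × J, Tendsto (fun M : κ → ℕ => if q.1 ≠ q.2 then
        avg M (fun m => if |ψ q.1 m - ψ q.2 m| ≤ p then (1 : ℝ) else 0) else 0)
        atTop (𝓝 0) := by
      intro q
      by_cases hq : q.1 ≠ q.2
      · simp only [if_pos hq]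
        exact hne _ _ hq
      · simp only [if_neg hq]
        exact tendsto_const_nhds
    have h2 := (tendsto_finsetSum (Finset.univ : Finset (J × J)) fun q _ => h1 q).add
      (tendsto_finsetSum (Finset.univ : Finset (J × κ)) fun q _ => hEd q.1 q.2)
    simpa using h2
  filter_upwards [hae] with x h1
  have h2 : Tendsto (fun M : κ → ℕ => (avg M fun m => (∏ j, Y j m x) * W m x) -
      avg M fun m => u m x) atTop (𝓝 0) := by
    refine squeeze_zero_norm (fun M => ?_) hbad
    rw [Real.norm_eq_abs, ← avg_sub]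
    refine (abs_avg_le M _).trans ?_
    have h3 : ∀ m, |(∏ j, Y j m x) * W m x - u m x| ≤ (∑ q : J × J, if q.1 ≠ q.2 then
        (if |ψ q.1 m - ψ q.2 m| ≤ p then (1 : ℝ) else 0) else 0) +
        ∑ q : J × κ, if m ∈ E q.1 q.2 then (1 : ℝ) else 0 := by
      intro m
      have hn1 : (0 : ℝ) ≤ ∑ q : J × J, if q.1 ≠ q.2 then
          (if |ψ q.1 m - ψ q.2 m| ≤ p then (1 : ℝ) else 0) else 0 :=
        Finset.sum_nonneg fun q _ => bad_nonneg ψ p m q
      have hn2' : ∀ q : J × κ, (0 : ℝ) ≤ if m ∈ E q.1 q.2 then (1 : ℝ) else 0 := fun q => by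
        split_ifs <;> norm_num
      have hn2 : (0 : ℝ) ≤ ∑ q : J × κ, if m ∈ E q.1 q.2 then (1 : ℝ) else 0 :=
        Finset.sum_nonneg fun q _ => hn2' q
      by_cases hg : G m
      · have h0 : (∏ j, Y j m x) * W m x - u m x = 0 := by
          rw [hu]
          unfold vG
          rw [if_pos hg, sub_self]
        rw [h0, abs_zero]
        exact add_nonneg hn1 hn2
      · have h4 : |(∏ j, Y j m x) * W m x - u m x| ≤ 1 := by
          have h0 : u m x = 0 := by
            rw [hu]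
            unfold vG
            rw [if_neg hg]
          rw [h0, sub_zero, abs_mul]
          exact mul_le_one₀ (abs_prod_le_one _ fun j _ => hY1 j m x) (abs_nonneg _) (hW1 m x)
        refine h4.trans ?_
        by_cases hE : ∀ j l, m ∉ E j l
        · have hg' : ¬ Good ψ p m := fun h => hg ⟨hE, h⟩
          have := one_le_bad hg'
          linarith
        · push Not at hE
          obtain ⟨j, l, hjl⟩ := hE
          have h5 := Finset.single_le_sum (f := fun q : J × κ =>
            if m ∈ E q.1 q.2 then (1 : ℝ) else 0) (fun q _ => hn2' q) (Finset.mem_univ (j, l))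
          have h6 : (if m ∈ E (j, l).1 (j, l).2 then (1 : ℝ) else 0) = 1 := if_pos hjl
          rw [h6] at h5
          linarith
    refine (avg_mono M h3).trans (le_of_eq ?_)
    rw [avg_add]
    congr 1
    · unfold avg
      rw [Finset.sum_comm, Finset.mul_sum]
      refine Finset.sum_congr rfl fun q _ => ?_
      by_cases hq : q.1 ≠ q.2
      · simp only [if_pos hq]
      · simp only [if_neg hq]
        simp
    · unfold avg
      rw [Finset.sum_comm, Finset.mul_sum]
  have h3 := h2.add h1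
  simp only [sub_add_cancel, add_zero] at h3
  exact h3

end Pool.Agent.Lib.Pf720pm
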