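import Pool.Agent.Lib.Pf720pm.Cls
import Pool.Agent.Lib.Pf720pm.Core
import Pool.Agent.Lib.Pf720pi.Base

/-!
# Products of tail functions and delayed martingale differences along polynomial maps
-/

set_option autoImplicit false
set_option linter.unusedSectionVars false

open Finset MeasureTheory Filter Topology
open scoped ENNReal

namespace Pool.Agent.Lib.Pf720pm

open Pool.Agent.Lib.Pf720ae
open Pool.Agent.Lib.Pf720pi (past tail past_mono past_le tail_le tail_le_past glue IsMD
  abs_prod_le_one measurable_tail_comp mdiff_meas mdiff_orth doubling)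

/-- convergence of all multiple averages with exponents in `Q` and a number
of variables in `K`, of bounded `m`-measurable real functions -/
def PolR {X : Type} {mX : MeasurableSpace X} (μ : Measure X) {d : ℕ} (K : Set ℕ)
    (Q : (κ : Type) → Set ((κ → ℕ) → Fin d → ℤ)) (W : (Fin d → ℤ) → X → X)
    (m : MeasurableSpace X) : Prop :=
  ∀ (κ : Type) [Fintype κ] [DecidableEq κ] (J : Type) [Fintype J] [DecidableEq J]
    (e : J → (κ → ℕ) → Fin d → ℤ) (F : J → X → ℝ), Fintype.card κ ∈ K → (∀ j, e j ∈ Q κ) →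
    (∀ j, Measurable[m] (F j)) →
    (∀ j x, |F j x| ≤ 1) → ∀ᵐ x ∂μ, Cvg fun m : κ → ℕ => ∏ j, F j (W (e j m) x)

variable {κ : Type} [Fintype κ] [DecidableEq κ]

theorem base_case {X : Type} {mP : MeasurableSpace X} {mX : MeasurableSpace X} {μ : Measure X}
    [IsProbabilityMeasure μ] {d : ℕ} (hP : mP ≤ mX) (W : (Fin d → ℤ) → X → X)
    (hW0 : ∀ x, W 0 x = x)
    (hWadd : ∀ a b x, W (a + b) x = W a (W b x)) (hWmp : ∀ a, MeasurePreserving (W a) μ μ)
    (φ : (Fin d → ℤ) →+ ℝ) (hφ : Dio φ)
    (K : Set ℕ) (hK : ∀ v w, 1 ≤ v → v + w ∈ K → v + 2 * w ∈ K)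
    (Q : (κ : Type) → Set ((κ → ℕ) → Fin d → ℤ)) (hQr : RenClosed Q)
    (hQ : ∀ (κ : Type), ∀ e ∈ Q κ, IsPol e ∧ e 0 = 0)
    (hH : PolR μ K Q W (tail W φ mP)) (hκ : Fintype.card κ ∈ K)
    {J : Type} [Fintype J] [DecidableEq J]
    (e : J → (κ → ℕ) → Fin d → ℤ) (heQ : ∀ j, e j ∈ Q κ) (he0 : ∀ j, e j ≠ 0)
    (heinj : Function.Injective e)
    (F : J → X → ℝ)
    (hF : ∀ j, (Measurable[tail W φ mP] (F j) ∧ ∀ x, |F j x| ≤ 1) ∨ IsMD μ W φ mP (F j)) :
    ∀ᵐ x ∂μ, Cvg fun m : κ → ℕ => ∏ j, F j (W (e j m) x) := by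
  classical
  set tt : J → Prop := fun j => Measurable[tail W φ mP] (F j) ∧ ∀ x, |F j x| ≤ 1 with htt
  by_cases hall : ∀ j, tt j
  · exact hH κ J e F hκ heQ (fun j => (hall j).1) (fun j => (hall j).2)
  push Not at hall
  obtain ⟨j₀, hj₀⟩ := hall
  have hWm : ∀ a, Measurable (W a) := fun a => (hWmp a).measurable
  have hpol : ∀ j, IsPol (e j) := fun j => (hQ κ _ (heQ j)).1
  have hez : ∀ j, e j 0 = 0 := fun j => (hQ κ _ (heQ j)).2
  -- the martingale differences
  have hmd : ∀ j : {j // ¬ tt j}, IsMD μ W φ mP (F j.1) := fun j => (hF j.1).resolve_left j.2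
  choose p f g hfm hf1 hgm hg1 hfg hFe using hmd
  have hFe' : ∀ (j : {j // ¬ tt j}) x, F j.1 x = (f j x - g j x) / 2 := fun j x =>
    congrFun (hFe j) x
  obtain ⟨pm, hpm⟩ : ∃ pm : ℕ, ∀ j, p j ≤ pm := ⟨Finset.univ.sup p, fun j =>
    Finset.le_sup (Finset.mem_univ j)⟩
  have hF1 : ∀ j x, |F j x| ≤ 1 := by
    intro j x
    by_cases h : tt j
    · exact h.2 x
    · rw [hFe' ⟨j, h⟩ x, abs_div, abs_of_pos (by norm_num : (0 : ℝ) < 2)]
      have h1 := abs_sub (f ⟨j, h⟩ x) (g ⟨j, h⟩ x)
      have h2 := hf1 ⟨j, h⟩ x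
      have h3 := hg1 ⟨j, h⟩ x
      rw [div_le_one (by norm_num)]
      linarith
  -- visible coordinates
  set vis : κ → Prop := fun l => ∃ j : {j // ¬ tt j}, FDep (e j.1) l with hvis
  have hvisj : ∀ (j : {j // ¬ tt j}) {m m' : κ → ℕ}, (∀ l, vis l → m l = m' l) →
      e j.1 m = e j.1 m' := fun j m m' h => fdep_congr (e j.1) fun l hl => h l ⟨j, hl⟩
  have hne : Nonempty {l // vis l} := by
    obtain ⟨m₀, hm₀⟩ := Function.ne_iff.1 (he0 j₀)
    obtain ⟨l, hl⟩ : ∃ l, FDep (e j₀) l := by
      refine exists_fdep (m := m₀) (m' := 0) _ ?_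
      rw [hez]
      exact hm₀
    exact ⟨⟨l, ⟨j₀, hj₀⟩, hl⟩⟩
  -- the exponents of the martingale differences only see the visible coordinates
  have hglue : ∀ (j : {j // ¬ tt j}) (m : κ → ℕ),
      e j.1 (glue vis (fun l => m l.1) 0) = e j.1 m := by
    intro j m
    refine hvisj j fun l hl => ?_
    unfold glue
    rw [dif_pos hl]
  set ψ : {j // ¬ tt j} → ({l // vis l} → ℕ) → ℝ := fun j m =>
    φ (e j.1 (glue vis m 0)) with hψ
  have hcore : ∀ M₀ : {l // ¬ vis l} → ℕ, ∀ᵐ x ∂μ,
      Tendsto (fun M₁ : {l // vis l} → ℕ => avg M₁ fun m₁ =>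
        (∏ j : {j // ¬ tt j}, F j.1 (W (e j.1 (glue vis m₁ 0)) x)) *
          avg M₀ fun m₀ => ∏ j : {j // tt j}, F j.1 (W (e j.1 (glue vis m₁ m₀)) x))
        atTop (𝓝 0) := by
    intro M₀
    refine core_lb (past W φ mP) (past_le W φ hP hWm) ψ
      (fun j l => FDep (fun a : {l // vis l} → ℕ => e j.1 (glue vis a 0)) l) (pm : ℝ)
      (by positivity) ?_ ?_ ?_
      (fun j m₁ x => F j.1 (W (e j.1 (glue vis m₁ 0)) x)) ?_ ?_ ?_ ?_
      (fun m₁ x => avg M₀ fun m₀ =>
        ∏ j : {j // tt j}, F j.1 (W (e j.1 (glue vis m₁ m₀)) x)) ?_ ?_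
    · -- distinct
      intro i j hij
      have hne' : e i.1 ≠ e j.1 := fun h => hij (Subtype.ext (heinj h))
      obtain ⟨m₀, hm₀⟩ := Function.ne_iff.1 hne'
      refine close_of_ne hφ ((hpol i.1).glue vis) ((hpol j.1).glue vis) ?_ ?_
        (Nat.cast_nonneg pm)
      · have h0 : glue vis (0 : {l // vis l} → ℕ) 0 = 0 := by
          funext l
          unfold glue
          split_ifs <;> rfl
        simp only [h0, hez]
      · intro h
        apply hm₀
        have := congrFun h (fun l => m₀ l.1)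
        rw [hglue, hglue] at this
        exact this
    · intro j l hl
      exact LB_of_fdep hφ ((hpol j.1).glue vis) hl (Nat.cast_nonneg pm)
    · rintro ⟨l, j, m, t, hmt⟩
      refine ⟨j, fun l => m l.1, t, ?_⟩
      have h1 : e j.1 (glue vis (fun l => m l.1) 0) = e j.1 m := hglue j m
      have h2 : e j.1 (glue vis (Function.update (fun l : {l // vis l} => m l.1)
          ⟨l, j, m, t, hmt⟩ t) 0) = e j.1 (Function.update m l t) := by
        rw [glue_update]
        refine hvisj j fun l' hl' => ?_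
        by_cases h : l' = l
        · subst h
          simp
        · rw [Function.update_of_ne h, Function.update_of_ne h]
          unfold glue
          rw [dif_pos hl']
      simp only
      rw [h1, h2]
      exact hmt
    · intro j m x
      exact hF1 _ _
    · intro j m s hs
      have h1 := mdiff_meas W hWadd φ (p := (p j : ℝ)) (by positivity) (hfm j) (hgm j)
        (e j.1 (glue vis m 0)) s hs
      have h2 := h1.div_const 2
      have e1 : (fun x => F j.1 (W (e j.1 (glue vis m 0)) x)) = fun x =>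
          (f j (W (e j.1 (glue vis m 0)) x) - g j (W (e j.1 (glue vis m 0)) x)) / 2 := by
        funext x
        exact hFe' j _
      rw [e1]
      exact h2
    · intro j m h hh hh1
      have hh' : Measurable[past W φ mP (φ (e j.1 (glue vis m 0)) - (p j : ℝ))] h := by
        refine hh.mono (past_mono W φ mP ?_) le_rfl
        have : (p j : ℝ) ≤ pm := by exact_mod_cast hpm j
        simp only [hψ]
        linarith
      have h1 := mdiff_orth hP W hW0 hWadd hWmp φ (p j : ℝ) (hfm j) (hf1 j) (hfg j) (hgm j)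
        (hg1 j) (e j.1 (glue vis m 0)) h hh' hh1
      have e2 : ∀ x, F j.1 (W (e j.1 (glue vis m 0)) x) * h x = (1 / 2) *
          ((f j (W (e j.1 (glue vis m 0)) x) - g j (W (e j.1 (glue vis m 0)) x)) *
            h x) := by
        intro x
        rw [hFe' j]
        ring
      simp only [e2]
      rw [integral_const_mul, h1, mul_zero]
    · intro j l hl m t x
      have h0 : ∀ (m : {l // vis l} → ℕ) t, e j.1 (glue vis (Function.update m l t) 0) =
          e j.1 (glue vis m 0) := by
        intro m t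
        by_contra h
        exact hl ⟨m, t, h⟩
      simp only [h0]
    · intro m x
      exact abs_avg_le_of_le zero_le_one fun m₀ => abs_prod_le_one _ _ fun j => hF1 _ _
    · intro m s
      unfold avg
      refine Measurable.const_mul (Finset.measurable_fun_sum _ fun m₀ _ => ?_) _
      refine Finset.measurable_fun_prod _ fun j _ => ?_
      exact measurable_tail_comp W hWadd φ j.2.1 _ s
  -- the doubled family
  have hcard : Fintype.card ({l // vis l} ⊕ ({l // ¬ vis l} ⊕ {l // ¬ vis l})) ∈ K := by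
    rw [Fintype.card_sum, Fintype.card_sum, ← two_mul]
    refine hK _ _ (Fintype.card_pos) ?_
    have := Fintype.card_subtype_compl vis
    have h2 : Fintype.card {l // vis l} ≤ Fintype.card κ := Fintype.card_subtype_le _
    rw [this, Nat.add_sub_cancel' h2]
    exact hκ
  have hdbl := hH ({l // vis l} ⊕ ({l // ¬ vis l} ⊕ {l // ¬ vis l})) ({j // tt j} ⊕ {j // tt j})
    (Sum.elim
      (fun j m => e j.1 fun l => m (inj₁ vis l))
      (fun j m => e j.1 fun l => m (inj₂ vis l)))
    (Sum.elim (fun j => F j.1) (fun j => F j.1)) hcard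
    (by
      rintro (j | j)
      · exact hQr _ _ _ (inj₁_injective vis) _ (heQ _)
      · exact hQr _ _ _ (inj₂_injective vis) _ (heQ _))
    (by rintro (j | j) <;> exact j.2.1) (by rintro (j | j) <;> exact j.2.2)
  filter_upwards [ae_all_iff.2 hcore, hdbl] with x hx1 hx2
  have h0 := doubling vis (fun m => ∏ j : {j // ¬ tt j}, F j.1 (W (e j.1 m) x))
    (fun m => ∏ j : {j // tt j}, F j.1 (W (e j.1 m) x))
    (fun m => abs_prod_le_one _ _ fun j => hF1 _ _)
    (fun m => abs_prod_le_one _ _ fun j => hF1 _ _) ?_ (fun M₀ _ => hx1 M₀) ?_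
  · refine ⟨0, h0.congr fun M => ?_⟩
    refine avg_congr fun m _ => ?_
    rw [mul_comm]
    exact Fintype.prod_subtype_mul_prod_subtype tt fun j => F j (W (e j m) x)
  · intro m m' hmm
    refine Finset.prod_congr rfl fun j _ => ?_
    rw [hvisj j hmm]
  · refine hx2.congr fun m => ?_
    rw [Fintype.prod_sum_type]
    congr 1
    · refine Finset.prod_congr rfl fun j _ => ?_
      simp only [Sum.elim_inl]
      rw [comp_inj₁]
    · refine Finset.prod_congr rfl fun j _ => ?_
      simp only [Sum.elim_inr]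
      rw [comp_inj₂]

end Pool.Agent.Lib.Pf720pm
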