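import Pool.Agent.Lib.Pf720mp.Defs
import Pool.Agent.Lib.Pf720ae.Alg.AE

/-!
# Polynomial maps with coefficient vectors, and Diophantine functionals

`Ex κ D = κ → Fin (D + 1)` is the set of exponents, `mon m γ = ∏ m_l ^ γ_l`, and
`pv a m = ∑_γ mon m γ • a γ` is the polynomial map `ℕ^κ → ℤ^d` with coefficients `a γ ∈ ℤ^d`.
`co l e a` is the coefficient of `m_l ^ e` (a polynomial map in the other variables).
-/

set_option autoImplicit false
set_option linter.unusedSectionVars false

open Finset Filter Topology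

namespace Pool.Agent.Lib.Pf720pm

open Pool.Agent.Lib.Pf720mp (Ex mon mon_zero)
open Pool.Agent.Lib.Pf720ae (avg box)

variable {κ : Type} [Fintype κ] [DecidableEq κ] {D d : ℕ}

/-- Diophantine functionals -/
def Dio (φ : (Fin d → ℤ) →+ ℝ) : Prop :=
  ∃ c : ℝ, 0 < c ∧ ∃ A : ℕ, ∀ v : Fin d → ℤ, v ≠ 0 → ∀ R : ℝ, 1 ≤ R → (∀ i, |(v i : ℝ)| ≤ R) →
    c ≤ R ^ A * |φ v|

lemma Dio.ne {φ : (Fin d → ℤ) →+ ℝ} (h : Dio φ) {v : Fin d → ℤ} (hv : v ≠ 0) : φ v ≠ 0 := by
  obtain ⟨c, hc, A, hA⟩ := h
  intro h0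
  have h1 : ∀ i, |(v i : ℝ)| ≤ 1 + ∑ i, |(v i : ℝ)| := fun i => by
    have := Finset.single_le_sum (f := fun i => |(v i : ℝ)|) (fun _ _ => abs_nonneg _)
      (Finset.mem_univ i)
    linarith
  have := hA v hv (1 + ∑ i, |(v i : ℝ)|) (by
    have : 0 ≤ ∑ i, |(v i : ℝ)| := Finset.sum_nonneg fun _ _ => abs_nonneg _
    linarith) h1
  rw [h0, abs_zero, mul_zero] at this
  linarith

lemma Dio.injective {φ : (Fin d → ℤ) →+ ℝ} (h : Dio φ) : Function.Injective φ := by
  rw [injective_iff_map_eq_zero]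
  intro v hv
  by_contra h0
  exact h.ne h0 hv

/-- the polynomial map with coefficients `a` -/
def pv (a : Ex κ D → Fin d → ℤ) (m : κ → ℕ) : Fin d → ℤ := ∑ γ, (mon m γ : ℤ) • a γ

/-- the coefficient of `m_l ^ e` -/
def co (l : κ) (e : Fin (D + 1)) (a : Ex κ D → Fin d → ℤ) : Ex κ D → Fin d → ℤ :=
  fun γ => if γ l = 0 then a (Function.update γ l e) else 0

/-- `pv a` depends on the variable `l` -/
def Dep (a : Ex κ D → Fin d → ℤ) (l : κ) : Prop := ∃ γ, a γ ≠ 0 ∧ γ l ≠ 0

/-- size of a coefficient vector -/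
def size (a : Ex κ D → Fin d → ℤ) : ℕ :=
  ∑ γ, if a γ = 0 then 0 else 1 + ∑ l, (γ l : ℕ)

lemma pv_zero (m : κ → ℕ) : pv (0 : Ex κ D → Fin d → ℤ) m = 0 := by
  simp [pv]

lemma pv_add (a b : Ex κ D → Fin d → ℤ) (m : κ → ℕ) : pv (a + b) m = pv a m + pv b m := by
  simp [pv, Finset.sum_add_distrib]

lemma pv_sub (a b : Ex κ D → Fin d → ℤ) (m : κ → ℕ) : pv (a - b) m = pv a m - pv b m := by
  simp [pv, smul_sub, Finset.sum_sub_distrib]

/-- a monomial at an updated point -/
lemma mon_split (m : κ → ℕ) (γ : Ex κ D) (l : κ) :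
    mon m γ = m l ^ (γ l : ℕ) * mon m (Function.update γ l 0) := by
  unfold mon
  rw [← Finset.mul_prod_erase Finset.univ _ (Finset.mem_univ l),
    ← Finset.mul_prod_erase Finset.univ (fun l' => m l' ^ ((Function.update γ l 0 l' : Fin (D + 1)) : ℕ))
      (Finset.mem_univ l)]
  rw [Function.update_self]
  simp only [Fin.val_zero, pow_zero, one_mul]
  congr 1
  refine Finset.prod_congr rfl fun l' hl' => ?_
  rw [Function.update_of_ne (Finset.ne_of_mem_erase hl')]

lemma mon_update (m : κ → ℕ) (γ : Ex κ D) {l : κ} (h : γ l = 0) (t : ℕ) :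
    mon (Function.update m l t) γ = mon m γ := by
  unfold mon
  refine Finset.prod_congr rfl fun l' _ => ?_
  by_cases e : l' = l
  · subst e
    rw [h]
    simp
  · rw [Function.update_of_ne e]

/-- the coefficients do not depend on the variable -/
lemma pv_update {a : Ex κ D → Fin d → ℤ} {l : κ} (h : ¬ Dep a l) (m : κ → ℕ) (t : ℕ) :
    pv a (Function.update m l t) = pv a m := by
  unfold pv
  refine Finset.sum_congr rfl fun γ _ => ?_
  by_cases h0 : a γ = 0
  · rw [h0]; simp
  · have : γ l = 0 := by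
      by_contra h1
      exact h ⟨γ, h0, h1⟩
    rw [mon_update m γ this]

lemma not_dep_co (a : Ex κ D → Fin d → ℤ) (l : κ) (e : Fin (D + 1)) : ¬ Dep (co l e a) l := by
  rintro ⟨γ, h1, h2⟩
  apply h1
  unfold co
  rw [if_neg h2]

lemma pv_co_update (a : Ex κ D → Fin d → ℤ) (l : κ) (e : Fin (D + 1)) (m : κ → ℕ) (t : ℕ) :
    pv (co l e a) (Function.update m l t) = pv (co l e a) m :=
  pv_update (not_dep_co a l e) m t

/-- expansion along one variable -/
lemma pv_eq_sum_co (a : Ex κ D → Fin d → ℤ) (l : κ) (m : κ → ℕ) :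
    pv a m = ∑ e : Fin (D + 1), ((m l : ℤ) ^ (e : ℕ)) • pv (co l e a) m := by
  have h1 : ∀ e : Fin (D + 1), ((m l : ℤ) ^ (e : ℕ)) • pv (co l e a) m =
      ∑ γ ∈ Finset.univ.filter (fun γ : Ex κ D => γ l = e), (mon m γ : ℤ) • a γ := by
    intro e
    unfold pv co
    rw [Finset.smul_sum]
    simp only [smul_ite, smul_zero, smul_smul]
    rw [← Finset.sum_filter]
    refine Finset.sum_bij' (fun γ _ => Function.update γ l e) (fun γ _ => Function.update γ l 0)
      ?_ ?_ ?_ ?_ ?_
    · intro γ _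
      simp
    · intro γ _
      simp
    · intro γ hγ
      have : γ l = 0 := (Finset.mem_filter.1 hγ).2
      funext l'
      by_cases h : l' = l
      · subst h; simp [this]
      · simp [Function.update_of_ne h]
    · intro γ hγ
      have : γ l = e := (Finset.mem_filter.1 hγ).2
      funext l'
      by_cases h : l' = l
      · subst h; simp [this]
      · simp [Function.update_of_ne h]
    · intro γ hγ
      have h0 : γ l = 0 := (Finset.mem_filter.1 hγ).2
      congr 1
      rw [mon_split m (Function.update γ l e) l]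
      simp only [Function.update_self, Function.update_idem]
      have : Function.update γ l 0 = γ := by
        rw [← h0, Function.update_eq_self]
      rw [this]
      push_cast
      ring
  simp only [h1]
  unfold pv
  rw [← Finset.sum_fiberwise_of_maps_to (s := Finset.univ) (t := Finset.univ)
    (g := fun γ : Ex κ D => γ l) (fun _ _ => Finset.mem_univ _)]

/-- constants -/
lemma pv_eq_of_not_dep {a : Ex κ D → Fin d → ℤ} (h : ∀ l, ¬ Dep a l) (m : κ → ℕ) :
    pv a m = a 0 := by
  unfold pv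
  rw [Finset.sum_eq_single (0 : Ex κ D)]
  · simp
  · intro γ _ hγ
    have : a γ = 0 := by
      by_contra h0
      apply hγ
      funext l
      by_contra h1
      exact h l ⟨γ, h0, h1⟩
    rw [this, smul_zero]
  · intro h'
    exact absurd (Finset.mem_univ _) h'

/-- the top degree in a variable -/
lemma exists_top {a : Ex κ D → Fin d → ℤ} {l : κ} (h : Dep a l) :
    ∃ e : Fin (D + 1), e ≠ 0 ∧ co l e a ≠ 0 ∧ ∀ e', e < e' → co l e' a = 0 := by
  classical
  set S : Finset (Fin (D + 1)) := Finset.univ.filter fun e => e ≠ 0 ∧ co l e a ≠ 0 with hS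
  have hco : ∀ γ : Ex κ D, a γ ≠ 0 → co l (γ l) a ≠ 0 := by
    intro γ hγ h0
    have := congrFun h0 (Function.update γ l 0)
    unfold co at this
    simp only [Function.update_self, Function.update_idem, Function.update_eq_self, if_true,
      Pi.zero_apply] at this
    exact hγ this
  have hne : S.Nonempty := by
    obtain ⟨γ, h1, h2⟩ := h
    exact ⟨γ l, Finset.mem_filter.2 ⟨Finset.mem_univ _, h2, hco γ h1⟩⟩
  refine ⟨S.max' hne, ?_, ?_, ?_⟩
  · exact (Finset.mem_filter.1 (S.max'_mem hne)).2.1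
  · exact (Finset.mem_filter.1 (S.max'_mem hne)).2.2
  · intro e' he'
    by_contra h0
    have h1 : e' ∈ S := Finset.mem_filter.2 ⟨Finset.mem_univ _, fun h => by
      rw [h] at he'
      exact absurd he' (Fin.not_lt_zero _), h0⟩
    exact absurd (S.le_max' e' h1) (not_le.2 he')

/-- removing the terms of degree `e` in `m_l` -/
def low (l : κ) (e : Fin (D + 1)) (a : Ex κ D → Fin d → ℤ) : Ex κ D → Fin d → ℤ :=
  fun γ => if γ l = e then 0 else a γ

lemma pv_low (l : κ) (e : Fin (D + 1)) (a : Ex κ D → Fin d → ℤ) (m : κ → ℕ) :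
    pv a m = pv (low l e a) m + ((m l : ℤ) ^ (e : ℕ)) • pv (co l e a) m := by
  have h1 : ∀ e', e' ≠ e → co l e' (low l e a) = co l e' a := by
    intro e' he'
    funext γ
    unfold co low
    split_ifs with h h'
    · exfalso
      rw [Function.update_self] at h'
      exact he' h'
    · rfl
    · rfl
  have h2 : co l e (low l e a) = 0 := by
    funext γ
    unfold co low
    simp
  rw [pv_eq_sum_co a l m, pv_eq_sum_co (low l e a) l m,
    ← Finset.add_sum_erase _ _ (Finset.mem_univ e),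
    ← Finset.add_sum_erase (f := fun e' : Fin (D + 1) =>
      ((m l : ℤ) ^ (e' : ℕ)) • pv (co l e' (low l e a)) m) _ (Finset.mem_univ e)]
  rw [h2, pv_zero, smul_zero, zero_add, add_comm]
  congr 1
  refine Finset.sum_congr rfl fun e' he' => ?_
  rw [h1 e' (Finset.ne_of_mem_erase he')]

lemma size_low {l : κ} {e : Fin (D + 1)} {a : Ex κ D → Fin d → ℤ} (h : co l e a ≠ 0) :
    size (low l e a) < size a := by
  obtain ⟨γ, hγ⟩ := Function.ne_iff.1 h
  unfold co at hγ
  have h0 : γ l = 0 := by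
    by_contra h0
    rw [if_neg h0] at hγ
    exact hγ rfl
  rw [if_pos h0] at hγ
  have hγ : a (Function.update γ l e) ≠ 0 := hγ
  unfold size
  refine Finset.sum_lt_sum (fun γ _ => ?_) ⟨Function.update γ l e, Finset.mem_univ _, ?_⟩
  · unfold low
    split_ifs <;> simp_all
  · have h1 : low l e a (Function.update γ l e) = 0 := by
      unfold low
      simp
    rw [if_pos h1, if_neg hγ]
    omega

lemma size_co {l : κ} {e : Fin (D + 1)} (he : e ≠ 0) {a : Ex κ D → Fin d → ℤ}
    (h : co l e a ≠ 0) : size (co l e a) < size a := by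
  obtain ⟨γ₀, hγ₀⟩ := Function.ne_iff.1 h
  have he0 : 0 < (e : ℕ) := Nat.pos_of_ne_zero fun h => he (Fin.ext h)
  -- compare termwise after the shift `γ ↦ update γ l e`
  have hsum : ∀ γ : Ex κ D, γ l = 0 → ∑ l', ((Function.update γ l e l' : Fin (D + 1)) : ℕ) =
      (e : ℕ) + ∑ l', (γ l' : ℕ) := by
    intro γ hγ
    rw [← Finset.add_sum_erase _ _ (Finset.mem_univ l),
      ← Finset.add_sum_erase (f := fun l' => (γ l' : ℕ)) _ (Finset.mem_univ l),
      Function.update_self, hγ]
    simp only [Fin.val_zero, zero_add]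
    congr 1
    refine Finset.sum_congr rfl fun l' hl' => ?_
    rw [Function.update_of_ne (Finset.ne_of_mem_erase hl')]
  unfold size
  have h1 : ∑ γ : Ex κ D, (if co l e a γ = 0 then 0 else 1 + ∑ l', (γ l' : ℕ)) =
      ∑ γ ∈ Finset.univ.filter (fun γ : Ex κ D => γ l = 0),
        (if a (Function.update γ l e) = 0 then 0 else 1 + ∑ l', (γ l' : ℕ)) := by
    rw [Finset.sum_filter]
    refine Finset.sum_congr rfl fun γ _ => ?_
    unfold co
    by_cases hγ : γ l = 0
    · rw [if_pos hγ, if_pos hγ]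
    · rw [if_neg hγ, if_neg hγ, if_pos rfl]
  have h2 : ∑ γ ∈ Finset.univ.filter (fun γ : Ex κ D => γ l = e),
        (if a γ = 0 then 0 else 1 + ∑ l', (γ l' : ℕ)) =
      ∑ γ ∈ Finset.univ.filter (fun γ : Ex κ D => γ l = 0),
        (if a (Function.update γ l e) = 0 then 0 else
          1 + ∑ l', ((Function.update γ l e l' : Fin (D + 1)) : ℕ)) := by
    refine (Finset.sum_bij' (fun γ _ => Function.update γ l e) (fun γ _ => Function.update γ l 0)
      ?_ ?_ ?_ ?_ ?_).symm
    · intro γ _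
      simp
    · intro γ _
      simp
    · intro γ hγ
      have : γ l = 0 := (Finset.mem_filter.1 hγ).2
      funext l'
      by_cases h : l' = l
      · subst h; simp [this]
      · simp [Function.update_of_ne h]
    · intro γ hγ
      have : γ l = e := (Finset.mem_filter.1 hγ).2
      funext l'
      by_cases h : l' = l
      · subst h; simp [this]
      · simp [Function.update_of_ne h]
    · intro γ _
      rfl
  rw [h1]
  have hle : ∑ γ ∈ Finset.univ.filter (fun γ : Ex κ D => γ l = e),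
      (if a γ = 0 then 0 else 1 + ∑ l', (γ l' : ℕ)) ≤
      ∑ γ : Ex κ D, (if a γ = 0 then 0 else 1 + ∑ l', (γ l' : ℕ)) :=
    Finset.sum_le_sum_of_subset (Finset.filter_subset _ _)
  refine lt_of_lt_of_le ?_ hle
  rw [h2]
  refine Finset.sum_lt_sum (fun γ hγ => ?_) ?_
  · rw [hsum γ (Finset.mem_filter.1 hγ).2]
    split_ifs <;> omega
  · have h3 : γ₀ l = 0 ∧ a (Function.update γ₀ l e) ≠ 0 := by
      unfold co at hγ₀
      by_cases h : γ₀ l = 0
      · rw [if_pos h] at hγ₀
        exact ⟨h, hγ₀⟩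
      · rw [if_neg h] at hγ₀
        exact absurd rfl hγ₀
    refine ⟨γ₀, Finset.mem_filter.2 ⟨Finset.mem_univ _, h3.1⟩, ?_⟩
    rw [if_neg h3.2, if_neg h3.2, hsum γ₀ h3.1]
    omega

end Pool.Agent.Lib.Pf720pm
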