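import Pool.Agent.Lib.Pf720pm.Factor

set_option autoImplicit false

open MeasureTheory Filter Topology

namespace Pool.Agent.Lib.Pf720pm.Hand

/-- The ordered composition `T_1^{e_1} ∘ ⋯ ∘ T_d^{e_d}` (the factor `i = 1` leftmost, so the factor
`i = d` acts first). -/
def word {X : Type} {d : ℕ} (T : Fin d → Equiv.Perm X) (e : Fin d → ℤ) : Equiv.Perm X :=
  (List.ofFn fun i => T i ^ e i).prod

/-- Shannon entropy (natural logarithm) of the join of the partitions `T^{-u} {A, Aᶜ}`,
`u ∈ {0, …, N-1}^d`. The cells of the join are indexed by the set `ω` of those `u` for which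
`T^u x ∈ A`. -/
noncomputable def blockEntropy {X : Type} [MeasurableSpace X] (μ : Measure X) {d : ℕ}
    (T : Fin d → Equiv.Perm X) (A : Set X) (N : ℕ) : ℝ :=
  ∑ ω : Finset (Fin d → Fin N), Real.negMulLog
    (μ.real {x | ∀ u : Fin d → Fin N, word T (fun i => ((u i : ℕ) : ℤ)) x ∈ A ↔ u ∈ ω})

/-- `A` has zero entropy for the `ℤ^d`-action: `blockEntropy μ T A N / N^d → 0`. -/
def ZeroEntropy {X : Type} [MeasurableSpace X] (μ : Measure X) {d : ℕ}
    (T : Fin d → Equiv.Perm X) (A : Set X) : Prop :=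
  Tendsto (fun N : ℕ => blockEntropy μ T A N / (N : ℝ) ^ d) atTop (𝓝 0)

/-- Let `K` be a set of numbers of variables and, for each `k`, `Q k` a set of `d`-tuples of
polynomials in `ℤ[m_1, …, m_k]`. For all `k ∈ K`, all `n`, all
`P_j = (P_{1,j}, …, P_{d,j}) ∈ Q k`, `j ≤ n`, and all `f_1, …, f_n ∈ L^∞(X, m, μ)` (bounded
functions that are a.e. equal to an `m`-measurable function) the averages
`(M_1 ⋯ M_k)⁻¹ ∑_{m ∈ [M_1] × ⋯ × [M_k]} ∏_j f_j (T_1^{P_{1,j}(m)} ⋯ T_d^{P_{d,j}(m)} x)`
converge for a.e. `x` as `min_i M_i → ∞` (unrestricted limit). -/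
def PolynomialConvergence {X : Type} [MeasurableSpace X] (μ : Measure X) {d : ℕ}
    (T : Fin d → Equiv.Perm X) (K : Set ℕ) (Q : (k : ℕ) → Set (Fin d → MvPolynomial (Fin k) ℤ))
    (m : MeasurableSpace X) : Prop :=
  ∀ k ∈ K, ∀ (n : ℕ) (P : Fin n → Fin d → MvPolynomial (Fin k) ℤ) (f : Fin n → X → ℂ),
    (∀ j, P j ∈ Q k) →
    (∀ j, MemLp (f j) ⊤ μ ∧ AEStronglyMeasurable[m] (f j) μ) →
    ∀ᵐ x ∂μ, ∃ L : ℂ, Tendsto (fun M : Fin k → ℕ => (∏ l, (M l : ℂ))⁻¹ *
      ∑ m ∈ Fintype.piFinset (fun l => Finset.Icc 1 (M l)),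
        ∏ j, f j (word T (fun i => MvPolynomial.eval (fun l => (m l : ℤ)) (P j i)) x))
      atTop (𝓝 L)

/-- `Q` is closed under injective renaming of the variables. -/
def RenamingClosed {d : ℕ} (Q : (k : ℕ) → Set (Fin d → MvPolynomial (Fin k) ℤ)) : Prop :=
  ∀ (k k' : ℕ) (σ : Fin k → Fin k'), Function.Injective σ → ∀ P ∈ Q k,
    (fun i => MvPolynomial.rename σ (P i)) ∈ Q k'

/-- Reduction to zero entropy for polynomial multiple averages of commuting maps. Let
`T_1, …, T_d` be commuting invertible measure-preserving maps of a probability space and let `𝒩` be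
a σ-algebra which contains, modulo null sets, every measurable set of zero entropy of the
`ℤ^d`-action (for instance the σ-algebra generated by these sets, or the trivial one if they all
have measure `0` or `1`). Let `Q` be a class of tuples of polynomials in several variables which is
closed under injective renaming of the variables (for instance all of them, or those of bounded
degree, or those without mixed monomials), and let the number `k` of variables be either arbitrary
(`K = ℕ`) or equal to one (`K = {1}`). Then the multiple averages with exponents in `Q` converge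
a.e. for all bounded measurable functions if and only if they do so for the bounded `𝒩`-measurable
functions. -/
theorem result (d : ℕ) (X : Type) (𝒩 : MeasurableSpace X) [mX : MeasurableSpace X]
    (μ : Measure X) [IsProbabilityMeasure μ] (T : Fin d → Equiv.Perm X)
    (hT : ∀ i, Measurable (T i) ∧ Measurable (T i).symm ∧ MeasurePreserving (T i) μ μ)
    (hcomm : ∀ i i', T i * T i' = T i' * T i)
    (h𝒩 : ∀ A : Set X, MeasurableSet A → ZeroEntropy μ T A → ∃ B, MeasurableSet[𝒩] B ∧ A =ᵐ[μ] B)
    (K : Set ℕ) (hK : K = {1} ∨ K = Set.univ)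
    (Q : (k : ℕ) → Set (Fin d → MvPolynomial (Fin k) ℤ)) (hQ : RenamingClosed Q) :
    PolynomialConvergence μ T K Q mX ↔ PolynomialConvergence μ T K Q 𝒩 :=
  Pool.Agent.Lib.Pf720pm.factor_reduction 𝒩 T hT hcomm K hK Q hQ _ rfl
    (fun A hA => h𝒩 A hA.1 hA.2)

/-- The case of the trivial σ-algebra: if every set of zero entropy has measure `0` or `1`, then
for all `k`, all `n`, all polynomials `P_{i,j} ∈ ℤ[m_1, …, m_k]` and all `f_j ∈ L^∞(μ)` the
averages converge a.e. -/
theorem completely_positive_entropy (d : ℕ) (X : Type) [mX : MeasurableSpace X]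
    (μ : Measure X) [IsProbabilityMeasure μ] (T : Fin d → Equiv.Perm X)
    (hT : ∀ i, Measurable (T i) ∧ Measurable (T i).symm ∧ MeasurePreserving (T i) μ μ)
    (hcomm : ∀ i i', T i * T i' = T i' * T i)
    (h : ∀ A : Set X, MeasurableSet A → ZeroEntropy μ T A → μ A = 0 ∨ μ A = 1) :
    PolynomialConvergence μ T Set.univ (fun _ => Set.univ) mX :=
  Pool.Agent.Lib.Pf720pm.cpe T hT hcomm _ rfl (fun _ hA => hA.1) (fun A hA => h A hA.1 hA.2)

end Pool.Agent.Lib.Pf720pm.Hand
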