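import Mathlib

/-!
# Small values of real polynomials at the natural numbers

If `b = P.coeff D ≠ 0`, `D ≥ 1`, `natDegree P ≤ D`, then `|P t| ≤ p` for at most
`(D + 1) ^ 2 * (p / |b| + 1)` natural numbers `t < N` (Lagrange interpolation at `D + 1` such numbers at
large mutual distances).
-/

set_option autoImplicit false

open Finset

namespace Pool.Agent.Lib.Pf720pm

private lemma spread {n : ℕ} {e : Fin n → ℕ} (he : StrictMono e) :
    ∀ (k : ℕ) (a b : Fin n), (b : ℕ) = a + k → e a + k ≤ e b := by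
  intro k
  induction k with
  | zero =>
    intro a b h
    have : b = a := Fin.ext (by simpa using h)
    subst this
    exact le_rfl
  | succ k ih =>
    intro a b h
    have hb := b.2
    have h1 := ih a ⟨a + k, by omega⟩ rfl
    have h2 : e ⟨a + k, by omega⟩ < e b := he (by
      rw [Fin.lt_def]
      show (a : ℕ) + k < b
      omega)
    omega

theorem count_line {D : ℕ} (hD : 1 ≤ D) (P : Polynomial ℝ) (hP : P.natDegree ≤ D)
    (hb : P.coeff D ≠ 0) {p : ℝ} (hp : 0 ≤ p) (N : ℕ) :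
    (((range N).filter fun t : ℕ => |P.eval (t : ℝ)| ≤ p).card : ℝ) ≤
      ((D : ℝ) + 1) ^ 2 * (p / |P.coeff D| + 1) := by
  obtain ⟨b, hbd⟩ : ∃ b : ℝ, b = |P.coeff D| := ⟨_, rfl⟩
  have hb0 : 0 < b := by rw [hbd]; exact abs_pos.2 hb
  obtain ⟨S, hS⟩ : ∃ S : Finset ℕ, S = (range N).filter fun t : ℕ => |P.eval (t : ℝ)| ≤ p :=
    ⟨_, rfl⟩
  rw [← hS, ← hbd]
  have hval : ∀ t ∈ S, |P.eval (t : ℝ)| ≤ p := by
    intro t ht
    rw [hS, mem_filter] at ht
    exact ht.2
  obtain ⟨s, hs⟩ : ∃ s : ℕ, s = ⌊((D : ℝ) + 1) * p / b⌋₊ + 1 := ⟨_, rfl⟩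
  have hs1 : 1 ≤ s := by omega
  have hs2 : ((D : ℝ) + 1) * p / b < s := by
    rw [hs]
    push_cast
    exact Nat.lt_floor_add_one _
  have hs3 : (s : ℝ) ≤ ((D : ℝ) + 1) * p / b + 1 := by
    rw [hs]
    push_cast
    have := Nat.floor_le (show (0 : ℝ) ≤ ((D : ℝ) + 1) * p / b by positivity)
    linarith
  have hcard : S.card ≤ D * s := by
    by_contra hcon
    push Not at hcon
    have hlt : ∀ i : Fin (D + 1), (i : ℕ) * s < S.card := fun i =>
      lt_of_le_of_lt (Nat.mul_le_mul_right s (Nat.lt_succ_iff.1 i.2)) hcon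
    obtain ⟨e, he⟩ : ∃ e : Fin S.card → ℕ, e = S.orderEmbOfFin rfl := ⟨_, rfl⟩
    have hmono : StrictMono e := by
      rw [he]
      exact (S.orderEmbOfFin rfl).strictMono
    have hmem : ∀ i, e i ∈ S := fun i => by
      rw [he]
      exact S.orderEmbOfFin_mem rfl i
    obtain ⟨v, hv⟩ : ∃ v : Fin (D + 1) → ℝ, ∀ i, v i = (e ⟨(i : ℕ) * s, hlt i⟩ : ℝ) :=
      ⟨_, fun _ => rfl⟩
    have hgap : ∀ i j : Fin (D + 1), i < j → (s : ℝ) ≤ v j - v i := by
      intro i j hij
      have h1 : (i : ℕ) * s ≤ (j : ℕ) * s := Nat.mul_le_mul_right s (le_of_lt hij)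
      have h2 := spread hmono ((j : ℕ) * s - (i : ℕ) * s) ⟨(i : ℕ) * s, hlt i⟩
        ⟨(j : ℕ) * s, hlt j⟩ (by
          show (j : ℕ) * s = (i : ℕ) * s + ((j : ℕ) * s - (i : ℕ) * s)
          omega)
      have h3 : s ≤ (j : ℕ) * s - (i : ℕ) * s := by
        rw [← Nat.sub_mul]
        exact Nat.le_mul_of_pos_left s (Nat.sub_pos_of_lt hij)
      have h4 : e ⟨(i : ℕ) * s, hlt i⟩ + s ≤ e ⟨(j : ℕ) * s, hlt j⟩ := by omega
      have h5 : ((e ⟨(i : ℕ) * s, hlt i⟩ : ℕ) : ℝ) + s ≤ (e ⟨(j : ℕ) * s, hlt j⟩ : ℕ) := by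
        exact_mod_cast h4
      rw [hv, hv]
      linarith
    have hgap' : ∀ i j : Fin (D + 1), i ≠ j → (s : ℝ) ≤ |v i - v j| := by
      intro i j hij
      rcases lt_or_gt_of_ne hij with h | h
      · rw [abs_sub_comm]
        exact (hgap i j h).trans (le_abs_self _)
      · exact (hgap j i h).trans (le_abs_self _)
    have hs0 : (0 : ℝ) < s := by exact_mod_cast hs1
    have hinj : Set.InjOn v ((univ : Finset (Fin (D + 1))) : Set (Fin (D + 1))) := by
      intro i _ j _ hij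
      by_contra hne
      have h1 := hgap' i j hne
      rw [hij, sub_self, abs_zero] at h1
      linarith
    have hdeg : P.degree < ((univ : Finset (Fin (D + 1))).card : WithBot ℕ) := by
      rw [card_univ, Fintype.card_fin]
      refine lt_of_le_of_lt (Polynomial.degree_le_of_natDegree_le hP) ?_
      exact_mod_cast Nat.lt_succ_self D
    have hL := Lagrange.coeff_eq_sum hinj hdeg
    rw [card_univ, Fintype.card_fin, Nat.add_sub_cancel] at hL
    have h1 : b ≤ ∑ _i : Fin (D + 1), p / s := by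
      rw [hbd, hL]
      refine (abs_sum_le_sum_abs _ _).trans (sum_le_sum fun i _ => ?_)
      rw [abs_div]
      have h2 : |P.eval (v i)| ≤ p := by
        rw [hv]
        exact hval _ (hmem ⟨(i : ℕ) * s, hlt i⟩)
      have h4 : (s : ℝ) ≤ |∏ j ∈ univ.erase i, (v i - v j)| := by
        rw [abs_prod]
        have h5 : ∏ _j ∈ univ.erase i, (s : ℝ) ≤ ∏ j ∈ univ.erase i, |v i - v j| :=
          prod_le_prod (fun _ _ => hs0.le) fun j hj => hgap' i j (ne_of_mem_erase hj).symm
        refine le_trans ?_ h5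
        rw [prod_const, card_erase_of_mem (mem_univ i), card_univ, Fintype.card_fin,
          Nat.add_sub_cancel]
        exact le_self_pow₀ (by exact_mod_cast hs1) (by omega)
      exact div_le_div₀ hp h2 hs0 h4
    rw [sum_const, card_univ, Fintype.card_fin, nsmul_eq_mul] at h1
    push_cast at h1
    have h6 : ((D : ℝ) + 1) * p < s * b := by
      rw [div_lt_iff₀ hb0] at hs2
      exact hs2
    have h7 : b * s ≤ ((D : ℝ) + 1) * p := by
      rw [← mul_div_assoc, le_div_iff₀ hs0] at h1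
      exact h1
    linarith
  have h8 : (S.card : ℝ) ≤ D * s := by exact_mod_cast hcard
  have hD0 : (0 : ℝ) ≤ D := Nat.cast_nonneg D
  have h9 : (D : ℝ) * s ≤ D * (((D : ℝ) + 1) * p / b + 1) := mul_le_mul_of_nonneg_left hs3 hD0
  have h10 : (0 : ℝ) ≤ p / b := by positivity
  have h11 : ((D : ℝ) + 1) * p / b = ((D : ℝ) + 1) * (p / b) := by rw [mul_div_assoc]
  rw [h11] at h9
  nlinarith [mul_nonneg hD0 h10]

end Pool.Agent.Lib.Pf720pm
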