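import Pool.Agent.Lib.Pf720pm.Coef
import Pool.Agent.Lib.Pf720pm.Line

/-!
# Few small values on the lines where the leading coefficient does not vanish
-/

set_option autoImplicit false

open Finset Filter Topology

namespace Pool.Agent.Lib.Pf720pm

open Pool.Agent.Lib.Pf720mp (Ex mon)

variable {κ : Type} [Fintype κ] [DecidableEq κ] {D d : ℕ}

theorem line_lead {φ : (Fin d → ℤ) →+ ℝ} (hφ : Dio φ) {a : Ex κ D → Fin d → ℤ} {l : κ}
    {e : Fin (D + 1)} (he : e ≠ 0) (htop : ∀ e', e < e' → co l e' a = 0) (m : κ → ℕ)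
    (hm : pv (co l e a) m ≠ 0) {p : ℝ} (hp : 0 ≤ p) (r : ℝ) (N : ℕ) :
    (((range N).filter fun t : ℕ => |r + φ (pv a (Function.update m l t))| ≤ p).card : ℝ) ≤
      ((D : ℝ) + 1) ^ 2 * (p / |φ (pv (co l e a) m)| + 1) := by
  obtain ⟨c, hc⟩ : ∃ c : Fin (D + 1) → ℝ, ∀ e', c e' = φ (pv (co l e' a) m) :=
    ⟨_, fun _ => rfl⟩
  have hc0 : ∀ e', e < e' → c e' = 0 := by
    intro e' h
    rw [hc, htop e' h, pv_zero, map_zero]
  have he0 : (e : ℕ) ≠ 0 := fun h => he (Fin.ext h)
  obtain ⟨P, hP⟩ : ∃ P : Polynomial ℝ, P = Polynomial.C r +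
      ∑ e' : Fin (D + 1), Polynomial.C (c e') * Polynomial.X ^ (e' : ℕ) := ⟨_, rfl⟩
  have hdeg : P.natDegree ≤ (e : ℕ) := by
    rw [hP]
    refine Polynomial.natDegree_add_le_of_degree_le ?_ ?_
    · rw [Polynomial.natDegree_C]
      exact Nat.zero_le _
    · refine Polynomial.natDegree_sum_le_of_forall_le _ _ fun e' _ => ?_
      by_cases h : e < e'
      · rw [hc0 e' h, map_zero, zero_mul, Polynomial.natDegree_zero]
        exact Nat.zero_le _
      · exact (Polynomial.natDegree_C_mul_X_pow_le (c e') (e' : ℕ)).trans (not_lt.1 h)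
  have hcoef : P.coeff (e : ℕ) = c e := by
    rw [hP, Polynomial.coeff_add, Polynomial.coeff_C, if_neg he0, zero_add,
      Polynomial.finsetSum_coeff, Finset.sum_eq_single e]
    · rw [Polynomial.coeff_C_mul_X_pow, if_pos rfl]
    · intro e' _ h
      rw [Polynomial.coeff_C_mul_X_pow, if_neg]
      intro h'
      exact h (Fin.ext h').symm
    · intro h
      exact absurd (mem_univ _) h
  have heval : ∀ t : ℕ, P.eval (t : ℝ) = r + φ (pv a (Function.update m l t)) := by
    intro t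
    rw [hP, Polynomial.eval_add, Polynomial.eval_C, Polynomial.eval_finsetSum,
      pv_eq_sum_co a l, map_sum]
    congr 1
    refine Finset.sum_congr rfl fun e' _ => ?_
    rw [map_zsmul, pv_co_update, Function.update_self, Polynomial.eval_mul, Polynomial.eval_C,
      Polynomial.eval_pow, Polynomial.eval_X, hc, zsmul_eq_mul]
    push_cast
    ring
  have hne : P.coeff (e : ℕ) ≠ 0 := by
    rw [hcoef, hc]
    exact hφ.ne hm
  have h1 := count_line (Nat.one_le_iff_ne_zero.2 he0) P hdeg hne hp N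
  simp only [heval] at h1
  rw [hcoef, hc] at h1
  refine h1.trans (mul_le_mul_of_nonneg_right ?_ (by positivity))
  have h2 : ((e : ℕ) : ℝ) ≤ D := by exact_mod_cast Nat.lt_succ_iff.1 e.2
  have h3 : (0 : ℝ) ≤ ((e : ℕ) : ℝ) := Nat.cast_nonneg _
  nlinarith

end Pool.Agent.Lib.Pf720pm
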