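import Pool.Agent.Lib.Pf720pm.Lead

/-!
# Small nonzero values of polynomial maps are rare

`small_values`: the fraction of the points `m` of the box with `0 < |φ (pv a m)| ≤ 1 / N` is at most
`C N ^ (-δ)`, for ALL boxes `M` and all real `N ≥ 1`. Strong induction on `size a`.

Let `φ` satisfy `c ≤ R ^ A |φ v|` (`Dio`). Let `B ≥ 1` bound `∑_γ |a γ i|` for all `i`, and
`η = 1 / (2 (A + 1) (D + 1) (card κ + 1))` (so `η (A * D * card κ) ≤ 1/2`).

Case 1: `M l ≤ N ^ η` for all `l` with `Dep a l`. For `m` in the box `mon m γ ≤ N ^ (η D card κ)` for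
all `γ` with `a γ ≠ 0` (for the `l` with `¬ Dep a l` the exponent `γ l` is `0`), so
`|pv a m i| ≤ R := B N ^ (η D card κ)`, hence `pv a m ≠ 0` implies
`|φ (pv a m)| ≥ c R ^ (-A) ≥ c B ^ (-A) N ^ (-1/2)`, which is `> 1 / N` as soon as
`N ^ (1/2) > B ^ A / c`. So the fraction is `0` for `N > (B ^ A / c)²`, and for smaller `N` it is
`≤ 1 ≤ C₀ N ^ (-δ)` with `C₀ = max 1 (B ^ A / c)²` if `δ ≤ 1`.

Case 2: there is `l` with `Dep a l`, `M l > N ^ η`. Let `e` be the top degree (`exists_top`),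
`b = co l e a`, `a' = low l e a`; both have smaller size (`size_co`, `size_low`), let `C_l, δ_l`,
`C'_l, δ'_l` be their constants. With `N' = N ^ (η / 2)`: if `0 < |φ (pv a m)| ≤ 1 / N` then
* `pv b m = 0`, and then `pv a m = pv a' m` (`pv_low`): fraction `≤ C'_l N ^ (-δ'_l)`; or
* `0 < |φ (pv b m)| ≤ 1 / N'`: fraction `≤ C_l N' ^ (-δ_l)`; or
* `pv b m ≠ 0`, `|φ (pv b m)| > 1 / N'` and `|φ (pv a m)| ≤ 1`: by `avg_update` (in
  `Pool.Agent.Lib.Pf720ae.Alg`) and `line_lead` with `p = 1` (and `pv_co_update`) the fraction is at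
  most `(D + 1)² (N' + 1) / M l ≤ 2 (D + 1)² N' N ^ (-η) = 2 (D+1)² N ^ (-η/2)`.
Take `C` the sum of all the constants over `l` (and `C₀`), `δ` the minimum of all the exponents
(`δ'_l`, `δ_l η / 2`, `η / 2`, `1`); `N ≥ 1`.
-/

set_option autoImplicit false
set_option linter.unusedSectionVars false

open Finset Filter Topology

namespace Pool.Agent.Lib.Pf720pm

open Pool.Agent.Lib.Pf720mp (Ex mon)
open Pool.Agent.Lib.Pf720ae (avg box)

variable {κ : Type} [Fintype κ] [DecidableEq κ] {D d : ℕ}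

namespace SmallAux

/-- indicator of the small nonzero values -/
noncomputable def ind (φ : (Fin d → ℤ) →+ ℝ) (a : Ex κ D → Fin d → ℤ) (N : ℝ) (m : κ → ℕ) : ℝ :=
  if 0 < |φ (pv a m)| ∧ |φ (pv a m)| ≤ N⁻¹ then (1 : ℝ) else 0

lemma ind_nonneg (φ : (Fin d → ℤ) →+ ℝ) (a : Ex κ D → Fin d → ℤ) (N : ℝ) (m : κ → ℕ) :
    0 ≤ ind φ a N m := by
  unfold ind
  split_ifs <;> norm_num

/-- monomials with few variables on small boxes -/
lemma mon_le {a : Ex κ D → Fin d → ℤ} {γ : Ex κ D} (hγ : a γ ≠ 0) {m : κ → ℕ} {T : ℝ}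
    (hT : 1 ≤ T) (hm : ∀ l, Dep a l → (m l : ℝ) ≤ T) :
    (mon m γ : ℝ) ≤ T ^ (D * Fintype.card κ) := by
  unfold mon
  push_cast
  calc ∏ l, (m l : ℝ) ^ (γ l : ℕ) ≤ ∏ _l : κ, T ^ D := by
        refine Finset.prod_le_prod (fun l _ => by positivity) fun l _ => ?_
        by_cases h0 : γ l = 0
        · rw [h0]
          simpa using one_le_pow₀ hT
        · calc (m l : ℝ) ^ (γ l : ℕ) ≤ T ^ (γ l : ℕ) :=
                pow_le_pow_left₀ (Nat.cast_nonneg _) (hm l ⟨γ, hγ, h0⟩) _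
            _ ≤ T ^ D := pow_le_pow_right₀ hT (Nat.lt_succ_iff.1 (γ l).2)
    _ = T ^ (D * Fintype.card κ) := by
        rw [Finset.prod_const, Finset.card_univ, ← pow_mul]

/-- case 1: all the relevant sides are short -/
lemma case_one {φ : (Fin d → ℤ) →+ ℝ} {c : ℝ} (hc : 0 < c) {A : ℕ}
    (hA : ∀ v : Fin d → ℤ, v ≠ 0 → ∀ R : ℝ, 1 ≤ R → (∀ i, |(v i : ℝ)| ≤ R) → c ≤ R ^ A * |φ v|)
    (a : Ex κ D → Fin d → ℤ) {η : ℝ} (hη : 0 < η)
    (hη1 : η * ((D * Fintype.card κ * A : ℕ) : ℝ) ≤ 1 / 2) :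
    ∃ C : ℝ, 0 ≤ C ∧ ∀ M : κ → ℕ, (∀ l, 0 < M l) → ∀ N : ℝ, 1 ≤ N →
      (∀ l, Dep a l → (M l : ℝ) ≤ N ^ η) → avg M (ind φ a N) ≤ C * N ^ (-(1 : ℝ)) := by
  set B : ℝ := 1 + ∑ i, ∑ γ, |(a γ i : ℝ)| with hB
  have hB0 : 0 ≤ ∑ i, ∑ γ, |(a γ i : ℝ)| :=
    Finset.sum_nonneg fun _ _ => Finset.sum_nonneg fun _ _ => abs_nonneg _
  have hB1 : 1 ≤ B := by linarith
  refine ⟨(B ^ A / c) ^ 2, sq_nonneg _, fun M hM N hN hs => ?_⟩
  have hN0 : 0 < N := by linarith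
  have hT : 1 ≤ N ^ η := Real.one_le_rpow hN hη.le
  have hT0 : 0 < N ^ η := by linarith
  have hpt : ∀ m ∈ box M, ind φ a N m ≤ (B ^ A / c) ^ 2 * N ^ (-(1 : ℝ)) := by
    intro m hm
    have hbd : 0 ≤ (B ^ A / c) ^ 2 * N ^ (-(1 : ℝ)) := by positivity
    unfold ind
    split_ifs with h
    · obtain ⟨h1, h2⟩ := h
      have hv : pv a m ≠ 0 := by
        intro h0
        rw [h0, map_zero, abs_zero] at h1
        exact lt_irrefl _ h1
      have hml : ∀ l, Dep a l → (m l : ℝ) ≤ N ^ η := by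
        intro l hl
        have h3 := Pool.Agent.Lib.Pf720ae.mem_box.1 hm l
        have h4 : (m l : ℝ) ≤ M l := by exact_mod_cast h3.le
        exact h4.trans (hs l hl)
      set T : ℝ := N ^ η with hTdef
      have hR1 : 1 ≤ B * T ^ (D * Fintype.card κ) :=
        one_le_mul_of_one_le_of_one_le hB1 (one_le_pow₀ hT)
      have hvi : ∀ i, |(pv a m i : ℝ)| ≤ B * T ^ (D * Fintype.card κ) := by
        intro i
        unfold pv
        simp only [Finset.sum_apply, Pi.smul_apply, smul_eq_mul]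
        push_cast
        calc |∑ γ, (mon m γ : ℝ) * (a γ i : ℝ)| ≤ ∑ γ, |(mon m γ : ℝ) * (a γ i : ℝ)| :=
              Finset.abs_sum_le_sum_abs _ _
          _ ≤ ∑ γ, T ^ (D * Fintype.card κ) * |(a γ i : ℝ)| := by
              refine Finset.sum_le_sum fun γ _ => ?_
              by_cases h0 : a γ = 0
              · rw [h0]; simp
              · rw [abs_mul, abs_of_nonneg (Nat.cast_nonneg _)]
                exact mul_le_mul_of_nonneg_right (mon_le h0 hT hml) (abs_nonneg _)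
          _ = T ^ (D * Fintype.card κ) * ∑ γ, |(a γ i : ℝ)| := by rw [Finset.mul_sum]
          _ ≤ T ^ (D * Fintype.card κ) * B := by
              refine mul_le_mul_of_nonneg_left ?_ (by positivity)
              have := Finset.single_le_sum (f := fun i => ∑ γ, |(a γ i : ℝ)|)
                (fun _ _ => Finset.sum_nonneg fun _ _ => abs_nonneg _) (Finset.mem_univ i)
              linarith
          _ = _ := mul_comm _ _
      have h3 := hA (pv a m) hv _ hR1 hvi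
      have h4 : (T ^ (D * Fintype.card κ)) ^ A ≤ N ^ (1 / 2 : ℝ) := by
        rw [← pow_mul, hTdef, ← Real.rpow_natCast, ← Real.rpow_mul hN0.le]
        exact Real.rpow_le_rpow_of_exponent_le hN hη1
      have h5 : c ≤ B ^ A * N ^ (1 / 2 : ℝ) * N⁻¹ := by
        calc c ≤ (B * T ^ (D * Fintype.card κ)) ^ A * |φ (pv a m)| := h3
          _ ≤ (B * T ^ (D * Fintype.card κ)) ^ A * N⁻¹ :=
              mul_le_mul_of_nonneg_left h2 (by positivity)
          _ = B ^ A * (T ^ (D * Fintype.card κ)) ^ A * N⁻¹ := by rw [mul_pow]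
          _ ≤ B ^ A * N ^ (1 / 2 : ℝ) * N⁻¹ := by
              refine mul_le_mul_of_nonneg_right ?_ (by positivity)
              exact mul_le_mul_of_nonneg_left h4 (by positivity)
      have h6 : N ^ (1 / 2 : ℝ) * N ^ (1 / 2 : ℝ) = N := by
        rw [← Real.rpow_add hN0]
        norm_num
      have hN2 : 0 < N ^ (1 / 2 : ℝ) := Real.rpow_pos_of_pos hN0 _
      have h7 : c * N ^ (1 / 2 : ℝ) ≤ B ^ A := by
        calc c * N ^ (1 / 2 : ℝ) ≤ (B ^ A * N ^ (1 / 2 : ℝ) * N⁻¹) * N ^ (1 / 2 : ℝ) :=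
              mul_le_mul_of_nonneg_right h5 hN2.le
          _ = B ^ A * ((N ^ (1 / 2 : ℝ) * N ^ (1 / 2 : ℝ)) * N⁻¹) := by ring
          _ = B ^ A := by rw [h6, mul_inv_cancel₀ hN0.ne', mul_one]
      have h8 : N ^ (1 / 2 : ℝ) ≤ B ^ A / c := by
        rw [le_div_iff₀ hc, mul_comm]
        exact h7
      have h9 : N ≤ (B ^ A / c) ^ 2 := by
        rw [← h6, sq]
        exact mul_le_mul h8 h8 hN2.le (by positivity)
      rw [Real.rpow_neg_one]
      calc (1 : ℝ) = N * N⁻¹ := (mul_inv_cancel₀ hN0.ne').symm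
        _ ≤ (B ^ A / c) ^ 2 * N⁻¹ := mul_le_mul_of_nonneg_right h9 (by positivity)
    · exact hbd
  calc avg M (ind φ a N) ≤ avg M (fun _ => (B ^ A / c) ^ 2 * N ^ (-(1 : ℝ))) :=
        Pool.Agent.Lib.Pf720ae.avg_mono' M hpt
    _ = _ := Pool.Agent.Lib.Pf720ae.avg_const hM _

/-- case 2: a relevant side is long -/
lemma case_two {φ : (Fin d → ℤ) →+ ℝ} (hφ : Dio φ) {a : Ex κ D → Fin d → ℤ} {l : κ}
    {e : Fin (D + 1)} (he : e ≠ 0) (htop : ∀ e', e < e' → co l e' a = 0) {η : ℝ} (hη : 0 < η)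
    {C₁ δ₁ : ℝ} (hC₁ : 0 ≤ C₁) (h₁ : ∀ M : κ → ℕ, (∀ l, 0 < M l) → ∀ N : ℝ, 1 ≤ N →
      avg M (ind φ (low l e a) N) ≤ C₁ * N ^ (-δ₁))
    {C₂ δ₂ : ℝ} (hC₂ : 0 ≤ C₂) (h₂ : ∀ M : κ → ℕ, (∀ l, 0 < M l) → ∀ N : ℝ, 1 ≤ N →
      avg M (ind φ (co l e a) N) ≤ C₂ * N ^ (-δ₂))
    {δ : ℝ} (hd1 : δ ≤ δ₁) (hd2 : δ ≤ η / 2 * δ₂) (hd3 : δ ≤ η / 2)
    (M : κ → ℕ) (hM : ∀ l, 0 < M l) (N : ℝ) (hN : 1 ≤ N) (hl : N ^ η < M l) :
    avg M (ind φ a N) ≤ (C₁ + C₂ + 2 * ((D : ℝ) + 1) ^ 2) * N ^ (-δ) := by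
  have hN0 : 0 < N := by linarith
  have hMl : (0 : ℝ) < M l := by exact_mod_cast hM l
  set N' : ℝ := N ^ (η / 2) with hN'
  have hN'1 : 1 ≤ N' := Real.one_le_rpow hN (by positivity)
  have hN'0 : 0 < N' := by linarith
  set b := co l e a with hb
  set g : (κ → ℕ) → ℝ := fun m =>
    if (pv b m ≠ 0 ∧ N'⁻¹ < |φ (pv b m)|) ∧ |φ (pv a m)| ≤ 1 then (1 : ℝ) else 0 with hg
  have hg0 : ∀ m, 0 ≤ g m := fun m => by
    rw [hg]
    simp only
    split_ifs <;> norm_num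
  -- pointwise
  have hpt : ∀ m, ind φ a N m ≤ ind φ (low l e a) N m + ind φ b N' m + g m := by
    intro m
    have i1 := ind_nonneg φ (low l e a) N m
    have i2 := ind_nonneg φ b N' m
    have i3 := hg0 m
    by_cases h : 0 < |φ (pv a m)| ∧ |φ (pv a m)| ≤ N⁻¹
    · have h1 : ind φ a N m = 1 := if_pos h
      rw [h1]
      by_cases hb0 : pv b m = 0
      · have h2 : pv (low l e a) m = pv a m := by
          rw [pv_low l e a m, ← hb, hb0, smul_zero, add_zero]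
        have h3 : ind φ (low l e a) N m = 1 := by
          unfold ind
          rw [h2]
          exact if_pos h
        linarith
      · have hpos : 0 < |φ (pv b m)| := abs_pos.2 (hφ.ne hb0)
        by_cases hs : |φ (pv b m)| ≤ N'⁻¹
        · have h3 : ind φ b N' m = 1 := if_pos ⟨hpos, hs⟩
          linarith
        · have h3 : g m = 1 := if_pos ⟨⟨hb0, not_le.1 hs⟩, h.2.trans (inv_le_one_of_one_le₀ hN)⟩
          linarith
    · have h1 : ind φ a N m = 0 := if_neg h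
      linarith
  -- the third part
  have hgavg : avg M g ≤ 2 * ((D : ℝ) + 1) ^ 2 * N ^ (-(η / 2)) := by
    rw [Pool.Agent.Lib.Pf720ae.Alg.avg_update M hM l]
    have hbd : 0 ≤ 2 * ((D : ℝ) + 1) ^ 2 * N ^ (-(η / 2)) := by positivity
    refine Pool.Agent.Lib.Pf720ae.avg_le_of_le hbd fun m => ?_
    by_cases hbm : pv b m ≠ 0 ∧ N'⁻¹ < |φ (pv b m)|
    · have h1 : ∀ t, g (Function.update m l t) =
          if |(0 : ℝ) + φ (pv a (Function.update m l t))| ≤ 1 then (1 : ℝ) else 0 := by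
        intro t
        rw [hg]
        simp only
        rw [hb, pv_co_update, ← hb, zero_add]
        by_cases h2 : |φ (pv a (Function.update m l t))| ≤ 1
        · rw [if_pos ⟨hbm, h2⟩, if_pos h2]
        · rw [if_neg fun h => h2 h.2, if_neg h2]
      simp only [h1]
      rw [← Finset.sum_filter, Finset.sum_const, nsmul_eq_mul, mul_one]
      have h3 := line_lead hφ he htop m hbm.1 zero_le_one 0 (M l)
      have h4 : 1 / |φ (pv (co l e a) m)| ≤ N' := by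
        rw [← hb, one_div]
        exact inv_le_of_inv_le₀ hN'0 hbm.2.le
      have h5 : ((D : ℝ) + 1) ^ 2 * (1 / |φ (pv (co l e a) m)| + 1) ≤
          2 * ((D : ℝ) + 1) ^ 2 * N' := by
        calc ((D : ℝ) + 1) ^ 2 * (1 / |φ (pv (co l e a) m)| + 1) ≤
            ((D : ℝ) + 1) ^ 2 * (N' + N') := by
              refine mul_le_mul_of_nonneg_left ?_ (by positivity)
              linarith
          _ = _ := by ring
      have h6 : (M l : ℝ)⁻¹ ≤ (N ^ η)⁻¹ := inv_anti₀ (Real.rpow_pos_of_pos hN0 _) hl.le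
      calc (M l : ℝ)⁻¹ * _ ≤ (N ^ η)⁻¹ * (2 * ((D : ℝ) + 1) ^ 2 * N') :=
            mul_le_mul h6 (h3.trans h5) (by positivity) (by positivity)
        _ = 2 * ((D : ℝ) + 1) ^ 2 * N ^ (-(η / 2)) := by
            rw [← Real.rpow_neg hN0.le, mul_left_comm, hN', ← Real.rpow_add hN0]
            congr 2
            ring
    · have h1 : ∀ t, g (Function.update m l t) = 0 := by
        intro t
        rw [hg]
        simp only
        rw [hb, pv_co_update, ← hb]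
        exact if_neg fun h => hbm h.1
      simp only [h1, Finset.sum_const_zero, mul_zero]
      exact hbd
  have e1 : N ^ (-δ₁) ≤ N ^ (-δ) := Real.rpow_le_rpow_of_exponent_le hN (neg_le_neg hd1)
  have e2 : N' ^ (-δ₂) ≤ N ^ (-δ) := by
    rw [hN', ← Real.rpow_mul hN0.le]
    exact Real.rpow_le_rpow_of_exponent_le hN (by linarith)
  have e3 : N ^ (-(η / 2)) ≤ N ^ (-δ) := Real.rpow_le_rpow_of_exponent_le hN (neg_le_neg hd3)
  calc avg M (ind φ a N) ≤ avg M (fun m => ind φ (low l e a) N m + ind φ b N' m + g m) :=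
        Pool.Agent.Lib.Pf720ae.avg_mono M hpt
    _ = avg M (ind φ (low l e a) N) + avg M (ind φ b N') + avg M g := by
        rw [Pool.Agent.Lib.Pf720ae.avg_add, Pool.Agent.Lib.Pf720ae.avg_add]
    _ ≤ C₁ * N ^ (-δ) + C₂ * N ^ (-δ) + 2 * ((D : ℝ) + 1) ^ 2 * N ^ (-δ) := by
        have f1 := (h₁ M hM N hN).trans (mul_le_mul_of_nonneg_left e1 hC₁)
        have f2 := (h₂ M hM N' hN'1).trans (mul_le_mul_of_nonneg_left e2 hC₂)
        have f3 := hgavg.trans (mul_le_mul_of_nonneg_left e3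
          (by positivity : (0 : ℝ) ≤ 2 * ((D : ℝ) + 1) ^ 2))
        linarith
    _ = _ := by ring

lemma main {φ : (Fin d → ℤ) →+ ℝ} (hφ : Dio φ) (n : ℕ) : ∀ a : Ex κ D → Fin d → ℤ, size a = n →
    ∃ C δ : ℝ, 0 ≤ C ∧ 0 < δ ∧ ∀ M : κ → ℕ, (∀ l, 0 < M l) → ∀ N : ℝ, 1 ≤ N →
      avg M (ind φ a N) ≤ C * N ^ (-δ) := by
  induction n using Nat.strong_induction_on with
  | _ n ih =>
  intro a ha
  obtain ⟨c, hc, A, hA⟩ := hφ
  have hφ : Dio φ := ⟨c, hc, A, hA⟩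
  set k : ℕ := D * Fintype.card κ * A with hk
  set η : ℝ := 1 / (2 * ((k : ℝ) + 1)) with hη'
  have hη : 0 < η := by positivity
  have hη1 : η * (k : ℝ) ≤ 1 / 2 := by
    rw [hη', div_mul_eq_mul_div, div_le_div_iff₀ (by positivity) (by norm_num)]
    linarith
  obtain ⟨C₀, hC₀, h0⟩ := case_one (φ := φ) hc hA a hη hη1
  have hl : ∀ l : κ, ∃ C δ : ℝ, 0 ≤ C ∧ 0 < δ ∧ (Dep a l → ∀ M : κ → ℕ, (∀ l, 0 < M l) →
      ∀ N : ℝ, 1 ≤ N → N ^ η < M l → avg M (ind φ a N) ≤ C * N ^ (-δ)) := by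
    intro l
    by_cases hd : Dep a l
    · obtain ⟨e, he, hco, htop⟩ := exists_top hd
      obtain ⟨C₁, δ₁, hC₁, hδ₁, h₁⟩ := ih _ (ha ▸ size_low hco) (low l e a) rfl
      obtain ⟨C₂, δ₂, hC₂, hδ₂, h₂⟩ := ih _ (ha ▸ size_co he hco) (co l e a) rfl
      refine ⟨C₁ + C₂ + 2 * ((D : ℝ) + 1) ^ 2, min δ₁ (min (η / 2 * δ₂) (η / 2)), by positivity,
        lt_min hδ₁ (lt_min (by positivity) (by positivity)), fun _ M hM N hN hlt => ?_⟩
      exact case_two hφ he htop hη hC₁ h₁ hC₂ h₂ (min_le_left _ _)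
        ((min_le_right _ _).trans (min_le_left _ _)) ((min_le_right _ _).trans (min_le_right _ _))
        M hM N hN hlt
    · exact ⟨0, 1, le_rfl, one_pos, fun h => absurd h hd⟩
  choose C δ hC hδ h using hl
  have hS : 0 ≤ ∑ l, (δ l)⁻¹ := Finset.sum_nonneg fun l _ => (inv_pos.2 (hδ l)).le
  set δ₀ : ℝ := (1 + ∑ l, (δ l)⁻¹)⁻¹ with hδ₀
  have hδ₀0 : 0 < δ₀ := by positivity
  have hδ₀1 : δ₀ ≤ 1 := inv_le_one_of_one_le₀ (by linarith)
  have hδ₀l : ∀ l, δ₀ ≤ δ l := by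
    intro l
    have h1 := Finset.single_le_sum (f := fun l => (δ l)⁻¹) (fun l _ => (inv_pos.2 (hδ l)).le)
      (Finset.mem_univ l)
    exact inv_le_of_inv_le₀ (hδ l) (by linarith)
  have hCs : 0 ≤ ∑ l, C l := Finset.sum_nonneg fun l _ => hC l
  refine ⟨C₀ + ∑ l, C l, δ₀, by positivity, hδ₀0, fun M hM N hN => ?_⟩
  have hN0 : 0 < N := by linarith
  have hpos : 0 ≤ N ^ (-δ₀) := Real.rpow_nonneg hN0.le _
  by_cases hs : ∀ l, Dep a l → (M l : ℝ) ≤ N ^ η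
  · refine (h0 M hM N hN hs).trans ?_
    refine mul_le_mul (by linarith) (Real.rpow_le_rpow_of_exponent_le hN (neg_le_neg hδ₀1))
      (Real.rpow_nonneg hN0.le _) (by positivity)
  · push Not at hs
    obtain ⟨l, hd, hlt⟩ := hs
    refine (h l hd M hM N hN hlt).trans ?_
    have h1 := Finset.single_le_sum (f := C) (fun l _ => hC l) (Finset.mem_univ l)
    refine mul_le_mul (by linarith) (Real.rpow_le_rpow_of_exponent_le hN (neg_le_neg (hδ₀l l)))
      (Real.rpow_nonneg hN0.le _) (by positivity)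

end SmallAux

theorem small_values {φ : (Fin d → ℤ) →+ ℝ} (hφ : Dio φ) (a : Ex κ D → Fin d → ℤ) :
    ∃ C δ : ℝ, 0 ≤ C ∧ 0 < δ ∧ ∀ M : κ → ℕ, (∀ l, 0 < M l) → ∀ N : ℝ, 1 ≤ N →
      avg M (fun m => if 0 < |φ (pv a m)| ∧ |φ (pv a m)| ≤ N⁻¹ then (1 : ℝ) else 0) ≤
        C * N ^ (-δ) :=
  SmallAux.main hφ (size a) a rfl

end Pool.Agent.Lib.Pf720pm
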